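import Mathlib
import Pool.Agent.N575.P15.PCEe
import Pool.Agent.N970.PCE.C

/-!
# The number of pairs with given Gram matrix for an even norm, part four: reciprocity

Generic form of `Pool.Agent.N575.P15.PCEd` and `PCEe` (`c0` is an odd prime).
-/

set_option autoImplicit false
set_option linter.all false

namespace Pool.Agent.N970.PCE

open Finset
open Pool.Agent.Z700 (hh)
open Pool.Agent.Y155.Z7 (hh_even hh_odd)
open Pool.Agent.N575.P15.PCE (exists_xy jac_one jac_pm dvd_of_primes)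

theorem J_neg {c0 : ℕ} (hc : c0.Prime) (hc4 : c0 % 4 = 1) (z : ℤ) :
    jacobiSym (-z) c0 = jacobiSym z c0 := by
  have h1 : (-z) = (-1) * z := by ring
  rw [h1, jacobiSym.mul_left, jacobiSym.at_neg_one (Nat.odd_iff.2 (by omega)),
    ZMod.χ₄_nat_one_mod_four hc4, one_mul]

theorem J_four {c0 : ℕ} (hc : c0.Prime) (hc2 : c0 ≠ 2) (z : ℤ) :
    jacobiSym (4 * z) c0 = jacobiSym z c0 := by
  have e : (4 * z : ℤ) = z * ((2 : ℕ) : ℤ) ^ 2 := by push_cast; ring
  rw [e]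
  apply Pool.Agent.Y155.Z7.J_sq c0 hc
  intro h
  exact hc2 ((Nat.prime_dvd_prime_iff_eq hc Nat.prime_two).1 h)

theorem jac_pmc {c0 : ℕ} (hc : c0.Prime) {z : ℤ} (h : ¬ (c0 : ℤ) ∣ z) :
    jacobiSym z c0 = 1 ∨ jacobiSym z c0 = -1 := by
  apply jac_pm
  intro p hp h5
  rw [(Nat.prime_dvd_prime_iff_eq hp hc).1 h5]
  exact h

theorem jac_onec {c0 : ℕ} (hc : c0.Prime) {z w : ℤ} (h : (c0 : ℤ) ∣ z - w ^ 2)
    (hz : ¬ (c0 : ℤ) ∣ z) : jacobiSym z c0 = 1 := by
  apply jac_one (w := w) h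
  intro p hp h5
  rw [(Nat.prime_dvd_prime_iff_eq hp hc).1 h5]
  exact hz

/-- the symbol at `c0` in terms of a value of the form -/
theorem val_c0 {c0 m φ g β e D : ℕ} (hc : c0.Prime) (hc4 : c0 % 4 = 1) (hg : φ * g = β ^ 2 + m)
    (h5 : c0 ∣ m) (h25 : ¬ c0 * c0 ∣ m)
    (hD : D = 4 * c0 * (e ^ 2 * φ)) (hD0 : 0 < D) (x y : ℤ) {a : ℤ}
    (ha : a = φ * x ^ 2 + 2 * β * x * y + g * y ^ 2) (ha5 : ¬ (c0 : ℤ) ∣ a) :
    hh (4 * m) D c0 = jacobiSym ((m / c0 : ℕ) * a) c0 := by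
  have p5 : Prime (c0 : ℤ) := Nat.prime_iff_prime_int.1 hc
  have hc2 : c0 ≠ 2 := by omega
  have hc0 := hc.pos
  have hcZ : (c0 : ℤ) ≠ 0 := by exact_mod_cast hc.ne_zero
  obtain ⟨m5, rfl⟩ := h5
  have hm5 : ¬ c0 ∣ m5 := by
    rintro ⟨c, rfl⟩
    exact h25 ⟨c, by ring⟩
  have e0 : c0 * m5 / c0 = m5 := Nat.mul_div_cancel_left _ hc0
  rw [e0]
  have hgZ : (φ : ℤ) * g = β ^ 2 + c0 * m5 := by exact_mod_cast hg
  by_cases hφ : c0 ∣ φ
  · obtain ⟨φ1, rfl⟩ := hφ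
    have hβ : c0 ∣ β := by
      apply hc.dvd_of_dvd_pow (n := 2)
      have h1 : c0 ∣ β ^ 2 + c0 * m5 := by rw [← hg]; exact ⟨φ1 * g, by ring⟩
      exact (Nat.dvd_add_left (Dvd.intro _ rfl)).1 h1
    obtain ⟨β1, rfl⟩ := hβ
    have h1 : φ1 * g = c0 * β1 ^ 2 + m5 := by
      apply Nat.eq_of_mul_eq_mul_left hc0
      rw [← mul_assoc, hg]; ring
    have h1Z : (φ1 : ℤ) * g = c0 * β1 ^ 2 + m5 := by exact_mod_cast h1
    have h2 : ¬ c0 ∣ φ1 * g := by
      rw [h1]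
      intro h
      exact hm5 ((Nat.dvd_add_right (Dvd.intro _ rfl)).1 h)
    have h3 : ¬ c0 ∣ φ1 := fun h => h2 (h.mul_right _)
    have h4 : ¬ c0 ∣ g := fun h => h2 (h.mul_left _)
    rw [hh_even c0 hc (4 * (c0 * m5)) (2 * c0 * e) φ1 D (by rw [hD]; ring) hD0 h3, J_neg hc hc4]
    have hga : jacobiSym ((g : ℤ) * a) c0 = 1 := by
      apply jac_onec hc (w := g * y + c0 * β1 * x)
      · refine ⟨m5 * x ^ 2, ?_⟩
        rw [ha]
        push_cast at hgZ ⊢
        linear_combination x ^ 2 * hgZ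
      · intro h
        rcases p5.dvd_or_dvd h with h | h
        · exact h4 (by exact_mod_cast h)
        · exact ha5 h
    have e1 : jacobiSym ((m5 : ℤ) * a) c0 = jacobiSym (φ1 * (g * a)) c0 := by
      apply jacobiSym.mod_left'
      apply Int.ModEq.symm
      apply Int.modEq_iff_dvd.2
      refine ⟨-(β1 ^ 2 * a), ?_⟩
      push_cast
      linear_combination (-a) * h1Z
    rw [e1, jacobiSym.mul_left _ (g * a), hga, mul_one]
  · have h3 : ¬ c0 ∣ 4 * φ := by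
      intro h
      rcases hc.dvd_mul.1 h with h | h
      · have h4 : 4 = 2 ^ 2 := by norm_num
        rw [h4] at h
        exact hc2 ((Nat.prime_dvd_prime_iff_eq hc Nat.prime_two).1 (hc.dvd_of_dvd_pow h))
      · exact hφ h
    rw [hh_odd c0 hc (4 * (c0 * m5)) e (4 * φ) D (by rw [hD]; ring) hD0 h3]
    have e1 : 4 * (c0 * m5) / c0 = 4 * m5 := by
      rw [show 4 * (c0 * m5) = c0 * (4 * m5) by ring]
      exact Nat.mul_div_cancel_left _ hc0
    rw [e1, J_neg hc hc4]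
    push_cast
    have e2 : (4 * (m5 : ℤ)) * (4 * φ) = 4 * (4 * (m5 * φ)) := by ring
    rw [e2, J_four hc hc2, J_four hc hc2]
    have hφZ : ¬ (c0 : ℤ) ∣ φ := fun h => hφ (by exact_mod_cast h)
    have hφa : jacobiSym ((φ : ℤ) * a) c0 = 1 := by
      apply jac_onec hc (w := φ * x + β * y)
      · refine ⟨m5 * y ^ 2, ?_⟩
        rw [ha]
        linear_combination y ^ 2 * hgZ
      · intro h
        rcases p5.dvd_or_dvd h with h | h
        · exact hφZ h
        · exact ha5 h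
    rw [jacobiSym.mul_left] at hφa
    rw [jacobiSym.mul_left, jacobiSym.mul_left]
    rcases jac_pmc hc hφZ with h7 | h7
    · rw [h7] at hφa ⊢
      rw [one_mul] at hφa
      rw [hφa]
    · rw [h7] at hφa ⊢
      have : jacobiSym a c0 = -1 := by linarith
      rw [this]

/-- the value modulo `8` of `x = c0 a` -/
theorem recip_core {m m0 x : ℕ} (hx2 : x % 2 = 1)
    (hm : (m % 4 = 1 ∧ m = m0) ∨ (m % 4 = 2 ∧ m = 2 * m0))
    (h1 : jacobiSym (-(m : ℤ)) x = -1) (h2 : jacobiSym (-(x : ℤ)) m0 = 1) :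
    (m % 4 = 1 → x % 4 = 3) ∧ (m % 4 = 2 → SG x m0) := by
  have hxo : Odd x := Nat.odd_iff.2 hx2
  have h4 : jacobiSym (-1) x = ZMod.χ₄ x := jacobiSym.at_neg_one hxo
  have e0 : -(x : ℤ) = (-1) * x := by ring
  rw [e0, jacobiSym.mul_left] at h2
  rcases hm with ⟨hm1, rfl⟩ | ⟨hm2, hm0⟩
  · refine ⟨fun _ => ?_, fun h => by omega⟩
    have hmo : Odd m := Nat.odd_iff.2 (by omega)
    rw [jacobiSym.at_neg_one hmo, ZMod.χ₄_nat_one_mod_four hm1, one_mul] at h2
    have h5 := jacobiSym.quadratic_reciprocity_one_mod_four hm1 hxo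
    have h6 : -(m : ℤ) = (-1) * m := by ring
    rw [h6, jacobiSym.mul_left, h5, h2, h4] at h1
    by_contra hcon
    have hc1 : x % 4 = 1 := by omega
    rw [ZMod.χ₄_nat_one_mod_four hc1] at h1
    norm_num at h1
  · refine ⟨fun h => by omega, fun _ => ?_⟩
    have hm0o : m0 % 2 = 1 := by omega
    have hm0' : Odd m0 := Nat.odd_iff.2 hm0o
    have h6 : -(m : ℤ) = (-2) * m0 := by rw [hm0]; push_cast; ring
    rw [h6, jacobiSym.mul_left, jacobiSym.at_neg_two hxo, ZMod.χ₈'_nat_eq_if_mod_eight,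
      if_neg (by omega)] at h1
    rw [jacobiSym.at_neg_one hm0'] at h2
    unfold SG
    have h8 : m0 % 4 = 1 ∨ m0 % 4 = 3 := by omega
    rcases h8 with h8 | h8
    · have h5 := jacobiSym.quadratic_reciprocity_one_mod_four h8 hxo
      rw [ZMod.χ₄_nat_one_mod_four h8, one_mul] at h2
      rw [h5, h2] at h1
      split_ifs at h1 with h9
      · norm_num at h1
      · omega
    · rw [ZMod.χ₄_nat_three_mod_four h8] at h2
      have h2' : jacobiSym (x : ℤ) m0 = -1 := by linarith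
      have h9 : x % 4 = 1 ∨ x % 4 = 3 := by omega
      rcases h9 with h9 | h9
      · have h5 := jacobiSym.quadratic_reciprocity_one_mod_four h9 hm0'
        rw [← h5, h2'] at h1
        split_ifs at h1 with h10
        · omega
        · norm_num at h1
      · have h5 := jacobiSym.quadratic_reciprocity_three_mod_four h8 h9
        rw [h5, h2'] at h1
        split_ifs at h1 with h10
        · norm_num at h1
        · omega

/-- the sign at two of the odd coefficients; `c0 ∤ m` or `c0 ∣ m`, `c0 ≡ 1 mod 4` -/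
theorem recip {c0 m m0 A B C : ℕ} (hc : c0.Prime) (hc2 : c0 ≠ 2) (hs : Squarefree m)
    (hm : (m % 4 = 1 ∧ m = m0) ∨ (m % 4 = 2 ∧ m = 2 * m0))
    (hAC : A * C = B ^ 2 + m) (hA : A % 2 = 1) {μ ν : ℤ} (h1 : (m0 : ℤ) ∣ μ ^ 2 + 4 * c0 * A)
    (h2 : (m0 : ℤ) ∣ 2 * c0 * (2 * B) + μ * ν) (h3 : (m0 : ℤ) ∣ 4 * c0 * C + ν ^ 2)
    (h5 : (¬ c0 ∣ m ∧ jacobiSym (-(m : ℤ)) c0 = -1) ∨ (c0 % 4 = 1 ∧ c0 ∣ m ∧ ∀ x y a : ℤ,
      a = A * x ^ 2 + 2 * B * x * y + C * y ^ 2 → ¬ (c0 : ℤ) ∣ a →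
        jacobiSym ((m / c0 : ℕ) * a) c0 = -1)) :
    (m % 4 = 1 → (c0 * A) % 4 = 3) ∧ (m % 4 = 2 → SG ((c0 * A : ℕ) : ℤ) m0) := by
  have hm0 : m ≠ 0 := hs.ne_zero
  have hc0 := hc.pos
  have hm00 : m0 ≠ 0 := by
    rintro rfl
    omega
  have hm0o : m0 % 2 = 1 := by omega
  have hcodd : c0 % 2 = 1 := by
    rcases hc.eq_two_or_odd with h | h
    · exact absurd h hc2
    · exact h
  have hm0m : m0 ∣ m := by
    rcases hm with ⟨_, h⟩ | ⟨_, h⟩
    · rw [h]
    · exact ⟨2, by rw [h]; ring⟩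
  have hsq : ∀ p : ℕ, p.Prime → ¬ p * p ∣ m := fun p hp h =>
    hp.one_lt.ne' (Nat.isUnit_iff.1 (hs p h))
  have hNodd : (c0 * m0) % 2 = 1 := by
    rw [Nat.mul_mod, hcodd, hm0o]
  have hprim : ∀ p : ℕ, p.Prime → p ∣ c0 * m0 → p ∣ A → p ∣ C → ¬ p ∣ 2 * B := by
    intro p hp hpN hpA hpC hpB
    have hp2 : p ≠ 2 := by
      rintro rfl
      omega
    have hpB' : p ∣ B := by
      rcases hp.dvd_mul.1 hpB with h | h
      · exact absurd ((Nat.prime_dvd_prime_iff_eq hp Nat.prime_two).1 h) hp2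
      · exact h
    apply hsq p hp
    have e1 : p * p ∣ B ^ 2 + m := by rw [← hAC]; exact Nat.mul_dvd_mul hpA hpC
    have e2 : p * p ∣ B ^ 2 := by rw [pow_two]; exact Nat.mul_dvd_mul hpB' hpB'
    exact (Nat.dvd_add_right e2).1 e1
  obtain ⟨x, y, hxy, hx2, hy8, hval⟩ := exists_xy A (2 * B) C (c0 * m0)
    (Nat.mul_ne_zero hc.ne_zero hm00) hNodd hprim
  obtain ⟨a, ha⟩ : ∃ a, a = A * x ^ 2 + 2 * B * x * y + C * y ^ 2 := ⟨_, rfl⟩
  rw [← ha] at hval
  have haZ : (a : ℤ) = A * x ^ 2 + 2 * B * x * y + C * y ^ 2 := by rw [ha]; push_cast; ring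
  have hACZ : (A : ℤ) * C = B ^ 2 + m := by exact_mod_cast hAC
  have ha8 : a % 8 = A % 8 := by
    obtain ⟨y', rfl⟩ := hy8
    obtain ⟨w, hw⟩ : ∃ w, x ^ 2 = 8 * w + 1 := by
      obtain ⟨t, rfl⟩ : ∃ t, x = 2 * t + 1 := ⟨x / 2, by omega⟩
      obtain ⟨w, hw⟩ := Nat.even_mul_succ_self t
      exact ⟨w, by linear_combination 4 * hw⟩
    have : a = 8 * (A * w + 2 * B * x * y' + 8 * C * y' ^ 2) + A := by
      rw [ha, hw]; ring
    rw [this]
    omega
  have ha2 : a % 2 = 1 := by omega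
  have hcm : ∀ p, p.Prime → p ∣ m → ¬ p ∣ a := by
    intro p hp hpm hpa
    by_cases hp2 : p = 2
    · subst hp2
      omega
    · refine hval p hp (Dvd.dvd.mul_left ?_ c0) hpa
      rcases hm with ⟨_, h⟩ | ⟨_, h⟩
      · rw [← h]; exact hpm
      · rw [h] at hpm
        rcases hp.dvd_mul.1 hpm with h' | h'
        · exact absurd ((Nat.prime_dvd_prime_iff_eq hp Nat.prime_two).1 h') hp2
        · exact h'
  have ha5n : ¬ c0 ∣ a := hval c0 hc (Dvd.intro _ rfl)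
  have ha5 : ¬ (c0 : ℤ) ∣ a := fun h => ha5n (by exact_mod_cast h)
  have ha5' : jacobiSym (a : ℤ) c0 = 1 ∨ jacobiSym (a : ℤ) c0 = -1 := jac_pmc hc ha5
  haveI : NeZero a := ⟨by rintro rfl; omega⟩
  haveI : NeZero c0 := ⟨hc.ne_zero⟩
  -- the symbol of `-m` modulo `a`
  have hJ1 : jacobiSym (-(m : ℤ)) a = 1 := by
    have hcop : IsCoprime (x : ℤ) (y : ℤ) := Nat.isCoprime_iff_coprime.2 hxy
    obtain ⟨v, u, huv⟩ := hcop
    apply jac_one (w := A * x * (-u) + B * (x * v + y * (-u)) + C * y * v)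
    · refine ⟨-(A * (-u) ^ 2 + 2 * B * (-u) * v + C * v ^ 2), ?_⟩
      rw [haZ]
      have huv' : v * (x : ℤ) + u * y = 1 := huv
      linear_combination ((v * (x : ℤ) + u * y) ^ 2) * hACZ + m * (v * x + u * y + 1) * huv'
    · intro p hp hpa h
      have h' : (p : ℤ) ∣ m := (Int.dvd_neg).1 h
      exact hcm p hp (by exact_mod_cast h') hpa
  -- the symbol of `-c0 a` modulo the divisors of `m0`
  have hw : (m0 : ℤ) ∣ -4 * c0 * a - (μ * x + ν * y) ^ 2 := by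
    obtain ⟨c1, hc1⟩ := h1
    obtain ⟨c2, hc2⟩ := h2
    obtain ⟨c3, hc3⟩ := h3
    refine ⟨-(c1 * x ^ 2 + 2 * c2 * x * y + c3 * y ^ 2), ?_⟩
    rw [haZ]
    linear_combination (-(x : ℤ) ^ 2) * hc1 - 2 * x * y * hc2 - (y : ℤ) ^ 2 * hc3
  have hJ20 : ∀ M : ℕ, M % 2 = 1 → M ∣ m0 → ¬ c0 ∣ M → jacobiSym (-((c0 * a : ℕ) : ℤ)) M = 1 := by
    intro M hM2 hMm hM5
    have hodd : ∀ p : ℕ, p.Prime → p ∣ M → ¬ p ∣ 4 := by
      intro p hp hpM h
      have h4 : 4 = 2 ^ 2 := by norm_num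
      rw [h4] at h
      have := (Nat.prime_dvd_prime_iff_eq hp Nat.prime_two).1 (hp.dvd_of_dvd_pow h)
      subst this
      omega
    have h1 : jacobiSym (-4 * c0 * a) M = 1 := by
      apply jac_one (dvd_trans (Int.natCast_dvd_natCast.2 hMm) hw)
      intro p hp hpM h
      have h' : (p : ℤ) ∣ (4 * c0 * a : ℕ) := by
        have e : (-4 * (c0 : ℤ) * (a : ℤ)) = -((4 * c0 * a : ℕ) : ℤ) := by push_cast; ring
        rw [e] at h
        exact (Int.dvd_neg).1 h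
      have h'' : p ∣ 4 * c0 * a := by exact_mod_cast h'
      rcases hp.dvd_mul.1 h'' with h6 | h6
      · rcases hp.dvd_mul.1 h6 with h6 | h6
        · exact hodd p hp hpM h6
        · have := (Nat.prime_dvd_prime_iff_eq hp hc).1 h6
          subst this
          exact hM5 hpM
      · exact hcm p hp ((hpM.trans hMm).trans hm0m) h6
    have h4 : jacobiSym ((2 : ℤ) ^ 2) M = 1 := by
      apply jac_one (w := 2) (by simp)
      intro p hp hpM h
      have h6 : p ∣ 2 ^ 2 := by exact_mod_cast h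
      exact hodd p hp hpM (by norm_num; exact h6)
    have e : (-4 * (c0 : ℤ) * (a : ℤ)) = (2 : ℤ) ^ 2 * (-((c0 * a : ℕ) : ℤ)) := by push_cast; ring
    rw [e, jacobiSym.mul_left, h4, one_mul] at h1
    exact h1
  have hfin : ∀ {q r : ℕ}, q % 4 = m % 4 → r % 4 = m0 % 4 →
      ((q % 4 = 1 ∧ q = r) ∨ (q % 4 = 2 ∧ q = 2 * r)) → jacobiSym (-(q : ℤ)) (c0 * a) = -1 →
      jacobiSym (-((c0 * a : ℕ) : ℤ)) r = 1 →
      (m % 4 = 1 → (c0 * A) % 4 = 3) ∧ (m % 4 = 2 → SG ((c0 * A : ℕ) : ℤ) m0) := by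
    intro q r hq hr hqr k1 k2
    have hx8 : (c0 * a) % 8 = (c0 * A) % 8 := by
      rw [Nat.mul_mod, ha8, ← Nat.mul_mod]
    have hxo : (c0 * a) % 2 = 1 := by rw [Nat.mul_mod, hcodd, ha2]
    obtain ⟨r1, r2⟩ := recip_core hxo hqr k1 k2
    generalize c0 * a = X at *
    generalize c0 * A = Y at *
    refine ⟨fun h => ?_, fun h => ?_⟩
    · have := r1 (by omega)
      omega
    · have := r2 (by omega)
      unfold SG at this ⊢
      omega
  rcases h5 with ⟨h5m, hJm⟩ | ⟨hc4, h5m, hJm⟩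
  · refine hfin rfl rfl hm ?_ ?_
    · rw [jacobiSym.mul_right, hJm, hJ1]; norm_num
    · exact hJ20 m0 hm0o (dvd_refl _) (fun h => h5m (h.trans hm0m))
  · have h5m0 : c0 ∣ m0 := by
      rcases hm with ⟨_, h9⟩ | ⟨_, h9⟩
      · rw [← h9]; exact h5m
      · rw [h9] at h5m
        rcases hc.dvd_mul.1 h5m with h | h
        · exact absurd ((Nat.prime_dvd_prime_iff_eq hc Nat.prime_two).1 h) hc2
        · exact h
    obtain ⟨M, hM⟩ := h5m0
    obtain ⟨m', hm'⟩ := h5m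
    have hM5 : ¬ c0 ∣ M := by
      rintro ⟨r, rfl⟩
      exact hsq c0 hc (dvd_trans ⟨r, by rw [hM]; ring⟩ hm0m)
    have hmd : m / c0 = m' := by rw [hm']; exact Nat.mul_div_cancel_left _ hc0
    have hmod : ∀ z : ℕ, (c0 * z) % 4 = z % 4 := by
      intro z
      rw [Nat.mul_mod, hc4, one_mul, Nat.mod_mod]
    have hm'M : (m' % 4 = 1 ∧ m' = M) ∨ (m' % 4 = 2 ∧ m' = 2 * M) := by
      have h6 := hmod m'
      rw [← hm'] at h6
      rcases hm with ⟨h8, h9⟩ | ⟨h8, h9⟩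
      · left
        refine ⟨by omega, ?_⟩
        apply Nat.eq_of_mul_eq_mul_left hc0
        rw [← hm', ← hM, h9]
      · right
        refine ⟨by omega, ?_⟩
        apply Nat.eq_of_mul_eq_mul_left hc0
        rw [← hm', h9, hM]; ring
    have hMm0 : M ∣ m0 := ⟨c0, by rw [hM]; ring⟩
    have hMo : M % 2 = 1 := by
      rcases Nat.mod_two_eq_zero_or_one M with h | h
      · exfalso
        have : 2 ∣ m0 := (Nat.dvd_of_mod_eq_zero h).trans hMm0
        omega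
      · exact h
    refine hfin (q := m') (r := M) ?_ ?_ hm'M ?_ ?_
    · rw [hm', hmod]
    · rw [hM, hmod]
    · have k1 : jacobiSym (-(m' : ℤ)) a = jacobiSym (a : ℤ) c0 := by
        have e1 : (-(m : ℤ)) = (c0 : ℤ) * (-(m' : ℤ)) := by rw [hm']; push_cast; ring
        rw [e1, jacobiSym.mul_left, jacobiSym.quadratic_reciprocity_one_mod_four hc4
          (Nat.odd_iff.2 ha2)] at hJ1
        rcases ha5' with h | h
        · rw [h, one_mul] at hJ1
          rw [h, hJ1]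
        · rw [h] at hJ1
          rw [h]
          linarith
      have k2 := hJm x y a haZ ha5
      rw [hmd, jacobiSym.mul_left] at k2
      rw [jacobiSym.mul_right, k1, J_neg hc hc4, k2]
    · exact hJ20 M hMo hMm0 hM5

/-! ### divisibility -/

/-- the additional conditions hold away from two -/
theorem auto_odd {c0 m0 T : ℕ} (hc : c0.Prime) (hc2 : c0 ≠ 2) (hs : Squarefree m0)
    (h2 : m0 % 2 = 1) (hT : Nat.Coprime T m0)
    {φ g β μ ν : ℤ} (hg : 4 * φ * g = β ^ 2 + (T * m0 : ℕ))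
    (h1 : (m0 : ℤ) ∣ μ ^ 2 + 4 * c0 * φ) (h3 : (m0 : ℤ) ∣ 2 * c0 * β + μ * ν)
    (h4 : (m0 : ℤ) ∣ 4 * c0 * g + ν ^ 2) :
    (m0 : ℤ) ∣ β * ν - 2 * g * μ ∧ (m0 : ℤ) ∣ β * μ - 2 * φ * ν ∧
      (m0 : ℤ) ^ 2 ∣ c0 * (T * m0 : ℕ) + (g * μ ^ 2 - β * μ * ν + φ * ν ^ 2) := by
  have key : ∀ p : ℕ, p.Prime → p ∣ m0 → (p : ℤ) ∣ β * ν - 2 * g * μ ∧ (p : ℤ) ∣ β * μ - 2 * φ * ν ∧
      (p : ℤ) ^ 2 ∣ c0 * (T * m0 : ℕ) + (g * μ ^ 2 - β * μ * ν + φ * ν ^ 2) := by
    intro p hp hpm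
    have hpZ : Prime (p : ℤ) := Nat.prime_iff_prime_int.1 hp
    have hpm' : (p : ℤ) ∣ m0 := Int.natCast_dvd_natCast.2 hpm
    have hp2 : p ≠ 2 := by
      rintro rfl
      omega
    have hp2Z : ¬ (p : ℤ) ∣ 2 := by
      intro h
      have : p ∣ 2 := by exact_mod_cast h
      exact hp2 ((Nat.prime_dvd_prime_iff_eq hp Nat.prime_two).1 this)
    have k1 := hpm'.trans h1
    have k3 := hpm'.trans h3
    have k4 := hpm'.trans h4
    have hX : (p : ℤ) ∣ β * ν - 2 * g * μ ∧ (p : ℤ) ∣ β * μ - 2 * φ * ν := by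
      by_cases hp5 : p = c0
      · subst hp5
        have hμ : (p : ℤ) ∣ μ := by
          apply hpZ.dvd_of_dvd_pow (n := 2)
          obtain ⟨r, hr⟩ := k1
          exact ⟨r - 4 * φ, by linear_combination hr⟩
        have hν : (p : ℤ) ∣ ν := by
          apply hpZ.dvd_of_dvd_pow (n := 2)
          obtain ⟨r, hr⟩ := k4
          exact ⟨r - 4 * g, by linear_combination hr⟩
        exact ⟨Dvd.dvd.sub (hν.mul_left _) (hμ.mul_left _),
          Dvd.dvd.sub (hμ.mul_left _) (hν.mul_left _)⟩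
      · have hp10 : ¬ (p : ℤ) ∣ 2 * c0 := by
          intro h
          have h' : p ∣ 2 * c0 := by exact_mod_cast h
          rcases hp.dvd_mul.1 h' with h' | h'
          · exact hp2 ((Nat.prime_dvd_prime_iff_eq hp Nat.prime_two).1 h')
          · exact hp5 ((Nat.prime_dvd_prime_iff_eq hp hc).1 h')
        constructor
        · have : (p : ℤ) ∣ 2 * c0 * (β * ν - 2 * g * μ) := by
            have e : 2 * c0 * (β * ν - 2 * g * μ) =
              (2 * c0 * β + μ * ν) * ν - (4 * c0 * g + ν ^ 2) * μ := by ring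
            rw [e]
            exact Dvd.dvd.sub (k3.mul_right _) (k4.mul_right _)
          exact (hpZ.dvd_or_dvd this).resolve_left hp10
        · have : (p : ℤ) ∣ 2 * c0 * (β * μ - 2 * φ * ν) := by
            have e : 2 * c0 * (β * μ - 2 * φ * ν) =
              (2 * c0 * β + μ * ν) * μ - (μ ^ 2 + 4 * c0 * φ) * ν := by ring
            rw [e]
            exact Dvd.dvd.sub (k3.mul_right _) (k1.mul_right _)
          exact (hpZ.dvd_or_dvd this).resolve_left hp10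
    refine ⟨hX.1, hX.2, ?_⟩
    have hn : (p : ℤ) ∣ ((T * m0 : ℕ) : ℤ) := Int.natCast_dvd_natCast.2 (hpm.mul_left T)
    have j1 : (p : ℤ) ^ 2 ∣
        4 * φ * (c0 * (T * m0 : ℕ) + (g * μ ^ 2 - β * μ * ν + φ * ν ^ 2)) := by
      have e : 4 * φ * (c0 * (T * m0 : ℕ) + (g * μ ^ 2 - β * μ * ν + φ * ν ^ 2)) =
          (T * m0 : ℕ) * (μ ^ 2 + 4 * c0 * φ) + (β * μ - 2 * φ * ν) ^ 2 := by
        linear_combination μ ^ 2 * hg
      rw [e]
      refine Dvd.dvd.add ?_ (pow_dvd_pow_of_dvd hX.2 2)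
      rw [pow_two]
      exact mul_dvd_mul hn k1
    have j2 : (p : ℤ) ^ 2 ∣
        4 * g * (c0 * (T * m0 : ℕ) + (g * μ ^ 2 - β * μ * ν + φ * ν ^ 2)) := by
      have e : 4 * g * (c0 * (T * m0 : ℕ) + (g * μ ^ 2 - β * μ * ν + φ * ν ^ 2)) =
          (T * m0 : ℕ) * (4 * c0 * g + ν ^ 2) + (β * ν - 2 * g * μ) ^ 2 := by
        linear_combination ν ^ 2 * hg
      rw [e]
      refine Dvd.dvd.add ?_ (pow_dvd_pow_of_dvd hX.1 2)
      rw [pow_two]
      exact mul_dvd_mul hn k4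
    have hp4 : ¬ (p : ℤ) ∣ 4 := by
      intro h
      have e : (4 : ℤ) = 2 * 2 := by norm_num
      rw [e] at h
      rcases hpZ.dvd_or_dvd h with h | h <;> exact hp2Z h
    by_cases hφ : (p : ℤ) ∣ φ
    · by_cases hgg : (p : ℤ) ∣ g
      · exfalso
        have l1 : (p : ℤ) ^ 2 ∣ β ^ 2 + (T * m0 : ℕ) := by
          rw [← hg, pow_two, mul_assoc]
          exact (mul_dvd_mul hφ hgg).mul_left 4
        have l2 : (p : ℤ) ∣ β := by
          apply hpZ.dvd_of_dvd_pow (n := 2)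
          have := (dvd_trans (dvd_pow_self _ two_ne_zero) l1 : (p : ℤ) ∣ _)
          exact (Int.dvd_iff_dvd_of_dvd_add this).2 hn
        have l3 : (p : ℤ) ^ 2 ∣ ((T * m0 : ℕ) : ℤ) := by
          have := Int.dvd_sub l1 (pow_dvd_pow_of_dvd l2 2)
          rwa [add_sub_cancel_left] at this
        have l4 : p ^ 2 ∣ T * m0 := by exact_mod_cast l3
        have l5 : Nat.Coprime (p ^ 2) T := by
          apply Nat.Coprime.pow_left
          exact Nat.Coprime.coprime_dvd_left hpm hT.symm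
        have l6 := l5.dvd_of_dvd_mul_left l4
        rw [pow_two] at l6
        exact hp.one_lt.ne' (Nat.isUnit_iff.1 (hs p l6))
      · have hcop : IsCoprime ((p : ℤ) ^ 2) (4 * g) := by
          apply IsCoprime.pow_left
          rw [Prime.coprime_iff_not_dvd hpZ]
          intro h
          rcases hpZ.dvd_or_dvd h with h | h
          · exact hp4 h
          · exact hgg h
        exact hcop.dvd_of_dvd_mul_left j2
    · have hcop : IsCoprime ((p : ℤ) ^ 2) (4 * φ) := by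
        apply IsCoprime.pow_left
        rw [Prime.coprime_iff_not_dvd hpZ]
        intro h
        rcases hpZ.dvd_or_dvd h with h | h
        · exact hp4 h
        · exact hφ h
      exact hcop.dvd_of_dvd_mul_left j1
  refine ⟨?_, ?_, ?_⟩
  · have := dvd_of_primes hs 1 (β * ν - 2 * g * μ) (fun p hp h => by
      rw [pow_one]; exact (key p hp h).1)
    rwa [pow_one] at this
  · have := dvd_of_primes hs 1 (β * μ - 2 * φ * ν) (fun p hp h => by
      rw [pow_one]; exact (key p hp h).2.1)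
    rwa [pow_one] at this
  · exact dvd_of_primes hs 2 _ (fun p hp h => (key p hp h).2.2)

theorem CS_shift {c T n1 φ g β μ ν : ℤ} (k l : ℤ) (h : CS c T n1 φ g β μ ν) :
    CS c T n1 φ g β (μ + T * k) (ν + T * l) := by
  obtain ⟨⟨a1, h1⟩, ⟨a2, h2⟩, ⟨a3, h3⟩, ⟨a4, h4⟩, ⟨a5, h5⟩, ⟨a6, h6⟩⟩ := h
  refine ⟨⟨a1 + 2 * μ * k + T * k ^ 2, by linear_combination h1⟩,
    ⟨a2 + μ * l + ν * k + T * k * l, by linear_combination h2⟩,
    ⟨a3 + 2 * ν * l + T * l ^ 2, by linear_combination h3⟩,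
    ⟨a4 + β * l - 2 * g * k, by linear_combination h4⟩,
    ⟨a5 + β * k - 2 * φ * l, by linear_combination h5⟩,
    ⟨a6 - a4 * k - a5 * l + g * k ^ 2 - β * k * l + φ * l ^ 2, ?_⟩⟩
  linear_combination h6 - T * k * h4 - T * l * h5

theorem CS_mod {c T n1 φ g β : ℤ} (x y : ℤ) :
    CS c T n1 φ g β x y ↔ CS c T n1 φ g β (x % T) (y % T) := by
  constructor
  · intro h
    have := CS_shift (-(x / T)) (-(y / T)) h
    have e1 : x + T * -(x / T) = x % T := by
      have := Int.emod_add_mul_ediv x T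
      linarith
    have e2 : y + T * -(y / T) = y % T := by
      have := Int.emod_add_mul_ediv y T
      linarith
    rwa [e1, e2] at this
  · intro h
    have := CS_shift (x / T) (y / T) h
    rwa [Int.emod_add_mul_ediv, Int.emod_add_mul_ediv] at this

end Pool.Agent.N970.PCE
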