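import Mathlib
import Pool.Agent.N970.PCE.E

/-!
# The ramified case `c0 ∣ n1`: the symbol at `c0` and the number of parameters for odd `n1`
-/

set_option autoImplicit false
set_option linter.all false

namespace Pool.Agent.N970.PCE

open Finset
open Pool.Agent.Z700 (hh fac)
open Pool.Agent.Y155.Z7 (C C_eq C_prod hh_even hh_odd J_sq)
open Pool.Agent.Y288.Z7 (dt crs content dt_crs_left smul_dt dt_comm)
open Pool.Agent.N969.P15 (tw)
open Pool.Agent.N972.PC15 (TT mem_TT card_TT U)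
open Pool.Agent.N970.PC
open Pool.Agent.N816.P17 (bi)

/-- the local structure at `c0`: `F` is anisotropic modulo its kernel `r` -/
structure LatR (c0 : ℕ) (F G : Matrix (Fin 3) (Fin 3) ℤ) (r : Fin 3 → ℤ) (k0 : ℤ) : Prop where
  iso : ∀ x : Fin 3 → ℤ, (c0 : ℤ) ∣ bi F x x → ∃ (t : ℤ) (y : Fin 3 → ℤ), x = t • r + (c0 : ℤ) • y
  ker : ∀ y : Fin 3 → ℤ, (c0 : ℤ) ∣ bi F r y
  rr : bi F r r = 2 * c0 * k0
  jk : jacobiSym (-k0) c0 = -1
  gv : ∀ v : Fin 3 → ℤ, (c0 : ℤ) ∣ bi G v v → ∃ v' : Fin 3 → ℤ,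
    (∀ x : Fin 3 → ℤ, bi F x v' = 2 * dt v x) ∧ c0 * bi F v' v' = 2 * bi G v v
  sF : ∀ x y : Fin 3 → ℤ, bi F x y = bi F y x

theorem bi_addl {F : Matrix (Fin 3) (Fin 3) ℤ} (v w u : Fin 3 → ℤ) :
    bi F (w + u) v = bi F w v + bi F u v := by
  simp only [bi, Pi.add_apply]; ring

theorem dt_addr (v w u : Fin 3 → ℤ) : dt (w + u) v = dt w v + dt u v := by
  simp only [dt, Pi.add_apply]; ring

/-- an integer with symbol one is a square modulo `c0` -/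
theorem sq_of_jac {c0 : ℕ} (hc : c0.Prime) {z : ℤ} (h : jacobiSym z c0 = 1) :
    ∃ s : ℤ, (c0 : ℤ) ∣ s ^ 2 - z := by
  haveI : Fact c0.Prime := ⟨hc⟩
  rw [← jacobiSym.legendreSym.to_jacobiSym] at h
  have hz : ((z : ℤ) : ZMod c0) ≠ 0 := by
    intro h0
    rw [(legendreSym.eq_zero_iff c0 z).2 h0] at h
    norm_num at h
  obtain ⟨y, hy⟩ := (legendreSym.eq_one_iff c0 hz).1 h
  obtain ⟨s, hs⟩ : ∃ s : ℤ, (s : ZMod c0) = y := ⟨(y.val : ℤ), by simp⟩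
  refine ⟨s, ?_⟩
  rw [← ZMod.intCast_zmod_eq_zero_iff_dvd]
  push_cast
  rw [hs, hy]
  ring

/-- a vector of norm divisible by `c0` exactly once determines the symbol at `c0` -/
theorem hh_ram {c0 : ℕ} {F G : Matrix (Fin 3) (Fin 3) ℤ} {r : Fin 3 → ℤ} {k0 : ℤ}
    (L : Lat c0 F G) (R : LatR c0 F G r k0) (hc : c0.Prime) (hc2 : c0 ≠ 2)
    {n1 D : ℕ} {n2 b : ℤ} (h25 : ¬ c0 * c0 ∣ n1) (h5 : c0 ∣ n1) (hD0 : 0 < D)
    (hDD : (D : ℤ) = n1 * n2 - b ^ 2) {v w : Fin 3 → ℤ} (hv : bi G v v = n1) (hw : bi G w w = n2)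
    (hvw : bi G v w = b) : hh n1 D c0 = -1 := by
  have p5 : Prime (c0 : ℤ) := Nat.prime_iff_prime_int.1 hc
  have hc0 := hc.pos
  have hcZ : (c0 : ℤ) ≠ 0 := by exact_mod_cast hc.ne_zero
  have hc2Z : ¬ (c0 : ℤ) ∣ 2 := by
    intro h
    have : c0 ∣ 2 := by exact_mod_cast h
    exact hc2 ((Nat.prime_dvd_prime_iff_eq hc Nat.prime_two).1 this)
  obtain ⟨m, hm⟩ := h5
  have hm5 : ¬ c0 ∣ m := by
    rintro ⟨a, rfl⟩
    exact h25 ⟨a, by rw [hm]; ring⟩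
  have hm5Z : ¬ (c0 : ℤ) ∣ m := fun h => hm5 (by exact_mod_cast h)
  have hcc : 4 * c0 * ff F (crs v w) = D := by
    have h1 := L.lag2 v w
    rw [hv, hw, hvw, ← hDD] at h1
    exact h1.symm
  have hcne : crs v w ≠ 0 := by
    intro h0
    rw [h0] at hcc
    simp only [ff, bi, Pi.zero_apply] at hcc
    have : (D : ℤ) = 0 := by rw [← hcc]; norm_num
    have : D = 0 := by exact_mod_cast this
    omega
  obtain ⟨e, c, z0, he, hce, hz0⟩ := content (crs v w) hcne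
  have heZ : (0 : ℤ) < e := by exact_mod_cast he
  have hcv : dt c v = 0 := by
    have h1 := dt_crs_left v w
    rw [hce, smul_dt] at h1
    exact (mul_eq_zero.1 h1).resolve_left heZ.ne'
  rw [hce, L.ff_smul] at hcc
  obtain ⟨φ, hφ⟩ : ∃ φ : ℕ, (φ : ℤ) = ff F c := ⟨_, Int.toNat_of_nonneg (L.ff_nonneg c)⟩
  rw [← hφ] at hcc
  have hcc' : D = e ^ 2 * (4 * c0 * φ) := by
    have : ((e ^ 2 * (4 * c0 * φ) : ℕ) : ℤ) = D := by
      push_cast
      rw [← hcc]; ring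
    exact_mod_cast this.symm
  have hcself : bi F c c = 2 * φ := by rw [L.self, hφ]
  by_cases hF5 : c0 ∣ φ
  · -- the even case
    obtain ⟨φ1, rfl⟩ := hF5
    obtain ⟨t, y, hty⟩ := R.iso c (by rw [hcself]; push_cast; exact ⟨2 * φ1, by ring⟩)
    have ht : ¬ (c0 : ℤ) ∣ t := by
      intro ⟨t', ht'⟩
      rw [hty, dt_addr, smul_dt, smul_dt, ht'] at hz0
      have : (c0 : ℤ) ∣ 1 := ⟨t' * dt r z0 + dt y z0, by rw [← hz0]; ring⟩
      have h1 : c0 ∣ 1 := by exact_mod_cast this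
      exact hc.one_lt.ne' (Nat.dvd_one.1 h1)
    obtain ⟨z', hz'⟩ := R.ker y
    have h1 : (φ1 : ℤ) = k0 * t ^ 2 + c0 * (t * z' + ff F y) := by
      have h2 := hcself
      rw [hty, bi_add, bi_addl, bi_addl, bi_smul, bi_smul, bi_smul, bi_smul, smul_bi, smul_bi,
        smul_bi, smul_bi, R.sF y r, R.rr, hz', L.self y] at h2
      apply mul_left_cancel₀ hcZ
      apply mul_left_cancel₀ (by norm_num : (2 : ℤ) ≠ 0)
      push_cast at h2
      linear_combination -h2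
    have hk : ¬ (c0 : ℤ) ∣ k0 := by
      intro hk
      have h2 : jacobiSym (-k0) c0 = 0 := by
        haveI : NeZero c0 := ⟨hc.ne_zero⟩
        rw [jacobiSym.eq_zero_iff]
        refine ⟨hc.ne_zero, ?_⟩
        intro h3
        have h4 : (c0 : ℤ) ∣ (Int.gcd (-k0) c0 : ℤ) := Int.dvd_coe_gcd (dvd_neg.2 hk) (dvd_refl _)
        rw [h3] at h4
        have h5 : c0 ∣ 1 := by exact_mod_cast h4
        exact hc.one_lt.ne' (Nat.dvd_one.1 h5)
      rw [R.jk] at h2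
      norm_num at h2
    have hφ1 : ¬ (c0 : ℤ) ∣ φ1 := by
      intro h
      rw [h1] at h
      have h2 : (c0 : ℤ) ∣ k0 * t ^ 2 := (Int.dvd_iff_dvd_of_dvd_add h).2 (Dvd.intro _ rfl)
      rcases p5.dvd_or_dvd h2 with h3 | h3
      · exact hk h3
      · exact ht (p5.dvd_of_dvd_pow h3)
    have hφ1' : ¬ c0 ∣ φ1 := fun h => hφ1 (by exact_mod_cast h)
    rw [hh_even c0 hc n1 (2 * c0 * e) φ1 D (by rw [hcc']; ring) hD0 hφ1', ← R.jk]
    have h2 : jacobiSym (-(φ1 : ℤ)) c0 = jacobiSym (-k0 * t ^ 2) c0 := by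
      apply jacobiSym.mod_left'
      apply Int.ModEq.symm
      apply Int.modEq_iff_dvd.2
      refine ⟨-(t * z' + ff F y), ?_⟩
      linear_combination -h1
    rw [h2, jacobiSym.mul_left]
    have h3 : jacobiSym (t ^ 2) c0 = 1 := by
      apply jac_onec hc (w := t) (by simp)
      intro h
      exact ht (p5.dvd_of_dvd_pow h)
    rw [h3, mul_one]
  · -- the odd case
    have hF5Z : ¬ (c0 : ℤ) ∣ φ := fun h => hF5 (by exact_mod_cast h)
    have hF4 : ¬ c0 ∣ 4 * φ := by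
      intro h
      have h' : (c0 : ℤ) ∣ 2 * (2 * φ) := by
        have : (c0 : ℤ) ∣ ((4 * φ : ℕ) : ℤ) := Int.natCast_dvd_natCast.2 h
        push_cast at this
        rw [show (2 : ℤ) * (2 * φ) = 4 * φ by ring]
        exact this
      rcases p5.dvd_or_dvd h' with h | h
      · exact hc2Z h
      · rcases p5.dvd_or_dvd h with h | h
        · exact hc2Z h
        · exact hF5Z h
    rw [hh_odd c0 hc n1 e (4 * φ) D (by rw [hcc']; ring) hD0 hF4]
    have hmm : n1 / c0 = m := by rw [hm]; exact Nat.mul_div_cancel_left m hc0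
    rw [hmm]
    have hnz : ¬ (c0 : ℤ) ∣ -((m : ℕ) * (4 * φ : ℕ) : ℤ) := by
      intro h
      have h' := (Int.dvd_neg).1 h
      have h'' : c0 ∣ m * (4 * φ) := by exact_mod_cast h'
      rcases hc.dvd_mul.1 h'' with h | h
      · exact hm5 h
      · exact hF4 h
    rcases jac_pmc hc hnz with hj | hj
    · exfalso
      obtain ⟨s, hs⟩ := sq_of_jac hc hj
      obtain ⟨v', hv1, hv2⟩ := R.gv v (by rw [hv, hm]; push_cast; exact ⟨m, by ring⟩)
      have hv3 : bi F v' v' = 2 * m := by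
        apply mul_left_cancel₀ hcZ
        rw [hv2, hv, hm]; push_cast; ring
      have hv4 : bi F c v' = 0 := by rw [hv1, dt_comm, hcv, mul_zero]
      have hv5 : bi F v' c = 0 := by rw [R.sF]; exact hv4
      obtain ⟨q, hq⟩ := hs
      push_cast at hq
      obtain ⟨t, y, hty⟩ := R.iso (s • c + (2 * (φ : ℤ)) • v') (by
        rw [bi_add, bi_addl, bi_addl, bi_smul, bi_smul, bi_smul, bi_smul, smul_bi, smul_bi,
          smul_bi, smul_bi, hcself, hv3, hv4, hv5]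
        exact ⟨2 * φ * q, by linear_combination 2 * φ * hq⟩)
      have h1 := congrArg (fun x => bi F x c) hty
      simp only [bi_addl, smul_bi, hcself, hv5] at h1
      obtain ⟨z', hz'⟩ := R.ker c
      rw [hz'] at h1
      have h2 : (c0 : ℤ) ∣ s * (2 * φ) := ⟨t * z' + bi F y c, by linear_combination h1⟩
      have h3 : (c0 : ℤ) ∣ s := by
        rcases p5.dvd_or_dvd h2 with h | h
        · exact h
        · rcases p5.dvd_or_dvd h with h | h
          · exact absurd h hc2Z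
          · exact absurd h hF5Z
      apply hnz
      have h4 : (c0 : ℤ) ∣ s ^ 2 := h3.pow two_ne_zero
      have h5 : (c0 : ℤ) ∣ s ^ 2 - -((m : ℤ) * (4 * φ)) := ⟨q, hq⟩
      have h6 := Int.dvd_sub h4 h5
      rw [sub_sub_cancel] at h6
      push_cast
      exact h6
    · exact hj

theorem hh_pm {c0 n1 D : ℕ} (hc : c0.Prime) (h25 : ¬ c0 * c0 ∣ n1) (h5 : c0 ∣ n1) (hD : 0 < D) :
    hh n1 D c0 = 1 ∨ hh n1 D c0 = -1 := by
  have h1 : ¬ c0 ∣ D / c0 ^ D.factorization c0 := Nat.not_dvd_ordCompl hc hD.ne'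
  obtain ⟨c, rfl⟩ := h5
  have hcn : ¬ c0 ∣ c := by
    rintro ⟨a, rfl⟩
    exact h25 ⟨a, by ring⟩
  unfold hh
  split_ifs
  · apply jac_pmc hc
    intro h
    exact h1 (by exact_mod_cast (Int.dvd_neg).1 h)
  · apply jac_pmc hc
    rw [Nat.mul_div_cancel_left _ hc.pos]
    intro h
    have h2 : c0 ∣ c * (D / c0 ^ D.factorization c0) := by exact_mod_cast (Int.dvd_neg).1 h
    rcases hc.dvd_mul.1 h2 with h3 | h3
    · exact hcn h3
    · exact h1 h3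

/-! ### odd norms divisible by `c0` -/

/-- the additional conditions are automatic for odd squarefree norms -/
theorem XE_eq_XX {c0 n1 : ℕ} (hc : c0.Prime) (hc2 : c0 ≠ 2) (hs : Squarefree n1)
    (h2 : n1 % 2 = 1) (b : ℤ) (Q : ℕ) : XE c0 n1 b Q = XX c0 n1 b Q := by
  unfold XE
  apply Finset.filter_true_of_mem
  rintro ⟨e, μ, β, ν⟩ hx
  have hw := wit_of_mem hx
  obtain ⟨he, hD, hβ, hμ, hν, hb, hd, hg, hee, hf⟩ := hw
  have hgZ : 4 * ((Q / e ^ 2 : ℕ) : ℤ) * (((β ^ 2 + n1) / (4 * (Q / e ^ 2)) : ℕ) : ℤ) =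
      (β : ℤ) ^ 2 + (1 * n1 : ℕ) := by
    rw [one_mul]
    exact_mod_cast hg
  have h := auto_odd (T := 1) (c0 := c0) (m0 := n1) (μ := μ) (ν := ν) hc hc2 hs h2
    (Nat.coprime_one_left n1) hgZ
    (by
      have : n1 ∣ μ ^ 2 + 4 * c0 * (Q / e ^ 2) := ⟨_, hd.symm⟩
      exact_mod_cast Int.natCast_dvd_natCast.2 this)
    (by
      have : n1 ∣ 2 * c0 * β + μ * ν := ⟨_, hee.symm⟩
      exact_mod_cast Int.natCast_dvd_natCast.2 this)
    (by
      have : n1 ∣ 4 * c0 * ((β ^ 2 + n1) / (4 * (Q / e ^ 2))) + ν ^ 2 := ⟨_, hf.symm⟩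
      exact_mod_cast Int.natCast_dvd_natCast.2 this)
  rw [one_mul] at h
  exact h

/-- the number of parameters, `c0 ∣ n1` -/
theorem t_XCR {c0 n1 n2 k Q : ℕ} {b : ℤ} (hc : c0.Prime) (hc2 : c0 ≠ 2) (hs : Squarefree n1)
    (h5 : c0 ∣ n1)
    (hk : n1 + 1 = 4 * k) (hQ : 0 < Q) (hDD : 4 * c0 * (Q : ℤ) = n1 * n2 - b ^ 2) :
    ((XX c0 n1 b Q).card : ℤ) = (U k Q : ℤ) *
      ∏ l ∈ n1.primeFactors.erase c0,
        (if l ∣ 4 * c0 * Q then 1 + hh n1 (4 * c0 * Q) l else 1) := by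
  have hn1 : 0 < n1 := Nat.pos_of_ne_zero hs.ne_zero
  have hc0 := hc.pos
  have hdvd : ∀ l, l.Prime → l ∣ n1 → l ≠ c0 → ¬ l ∣ 2 * c0 ∧ ¬ l ^ 2 ∣ n1 := by
    intro l hp hl hl5
    refine ⟨fun h => ?_, ?_⟩
    · rcases hp.dvd_mul.1 h with h | h
      · have := (Nat.prime_dvd_prime_iff_eq hp Nat.prime_two).1 h
        subst this
        omega
      · exact hl5 ((Nat.prime_dvd_prime_iff_eq hp hc).1 h)
    · intro h
      rw [pow_two] at h
      exact hp.one_lt.ne' (Nat.isUnit_iff.1 (hs l h))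
  have hD0 : 0 < 4 * c0 * Q := by positivity
  have hDD' : ((4 * c0 * Q : ℕ) : ℤ) = n1 * n2 - b ^ 2 := by
    push_cast
    exact hDD
  have hb5 : (c0 : ℤ) ∣ b := by
    have p5 : Prime (c0 : ℤ) := Nat.prime_iff_prime_int.1 hc
    apply p5.dvd_of_dvd_pow (n := 2)
    obtain ⟨c, hcc⟩ := h5
    refine ⟨c * n2 - 4 * Q, ?_⟩
    rw [hcc] at hDD
    push_cast at hDD
    linear_combination hDD
  have h5m : c0 ∈ n1.primeFactors := Nat.mem_primeFactors.2 ⟨hc, h5, hn1.ne'⟩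
  -- the fibres
  have h1 : ∀ t ∈ TT n1 Q, (((XX c0 n1 b Q).filter fun q => (q.1, q.2.2.1) = t).card : ℤ) =
      ∏ l ∈ n1.primeFactors.erase c0,
        if l ∣ 4 * c0 * Q then 1 + hh n1 (4 * c0 * Q) l else 1 := by
    intro t ht
    obtain ⟨g1, g2, g3, g4, g5⟩ := (mem_TT n1 Q t).1 ht
    have hφ : 0 < Q / t.1 ^ 2 := Nat.div_pos (Nat.le_of_dvd hQ g3) (pow_pos g2 2)
    rw [fib c0 n1 hn1 b Q t ht, C_prod _ _ _ _ _ (by positivity : 0 < 4 * c0 * (Q / t.1 ^ 2)) hs,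
      ← Finset.mul_prod_erase _ _ h5m,
      C_ram hc hb5 ⟨4 * (Q / t.1 ^ 2), by ring⟩ ⟨2 * t.2, by ring⟩
        ⟨4 * ((t.2 ^ 2 + n1) / (4 * (Q / t.1 ^ 2))), by ring⟩, one_mul, Nat.cast_prod]
    refine Finset.prod_congr rfl fun l hl => ?_
    have hle := Finset.mem_erase.1 hl
    have hl1 := Nat.prime_of_mem_primeFactors hle.2
    have hl2 := Nat.dvd_of_mem_primeFactors hle.2
    have hl10 := (hdvd l hl1 hl2 hle.1).1
    refine C_local (K := 2 * c0) (n2 := n2) hl1 ?_ hl10 hl2 (hdvd l hl1 hl2 hle.1).2 hD0 hDD' ?_ ?_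
    · rintro rfl
      exact hl10 (Dvd.intro _ rfl)
    · rw [mul_left_comm, Nat.mul_div_cancel' g3]
    · have e1 := Nat.mul_div_cancel' g5
      generalize (t.2 ^ 2 + n1) / (4 * (Q / t.1 ^ 2)) = g at e1 ⊢
      have : 4 * c0 * (Q / t.1 ^ 2) * (4 * c0 * g) = (2 * c0) ^ 2 * (4 * (Q / t.1 ^ 2) * g) := by
        ring
      rw [this, e1]
      ring
  rw [Finset.card_eq_sum_card_fiberwise (f := fun q => (q.1, q.2.2.1)) (t := TT n1 Q),
    Nat.cast_sum, Finset.sum_congr rfl h1, Finset.sum_const, nsmul_eq_mul, card_TT hk Q hQ]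
  intro q hq
  have hq := Finset.mem_coe.1 hq
  unfold XX at hq
  have hq := Finset.mem_filter.1 hq
  have hq3 := Finset.mem_product.1 hq.1
  exact Finset.mem_coe.2 ((mem_TT n1 Q _).2 ⟨Finset.mem_range.1 hq3.1, hq.2.1, hq.2.2.1,
    hq.2.2.2.1, hq.2.2.2.2.2.2.1⟩)

theorem prod_facR {c0 n1 Q : ℕ} (hc : 0 < c0) (hn1 : 0 < n1) (hQ : 0 < Q) (h2 : ¬ 2 ∣ n1) :
    (∏ l ∈ ((4 * c0 * Q).primeFactors.erase 2).erase c0, (if l ∣ n1 then (1 : ℤ) else
        ∑ j ∈ range ((4 * c0 * Q).factorization l + 1), (jacobiSym (-(n1 : ℤ)) l) ^ j)) *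
      ∏ l ∈ n1.primeFactors.erase c0, (if l ∣ 4 * c0 * Q then 1 + hh n1 (4 * c0 * Q) l else 1) =
    ∏ l ∈ ((4 * c0 * Q).primeFactors.erase 2).erase c0, fac n1 (4 * c0 * Q) l := by
  have h4 : ∏ l ∈ n1.primeFactors.erase c0,
      (if l ∣ 4 * c0 * Q then 1 + hh n1 (4 * c0 * Q) l else 1) =
      ∏ l ∈ ((4 * c0 * Q).primeFactors.erase 2).erase c0,
        (if l ∣ n1 then 1 + hh n1 (4 * c0 * Q) l else 1) := by
    rw [← Finset.prod_filter, ← Finset.prod_filter]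
    refine Finset.prod_congr ?_ fun _ _ => rfl
    ext l
    rw [Finset.mem_filter, Finset.mem_filter, Finset.mem_erase, Finset.mem_erase, Finset.mem_erase,
      Nat.mem_primeFactors, Nat.mem_primeFactors]
    constructor
    · rintro ⟨⟨a0, a1, a2, _⟩, a4⟩
      refine ⟨⟨a0, ?_, a1, a4, by positivity⟩, a2⟩
      rintro rfl; exact h2 a2
    · rintro ⟨⟨a0, _, a1, a4, _⟩, a2⟩
      exact ⟨⟨a0, a1, a2, hn1.ne'⟩, a4⟩
  rw [h4, ← Finset.prod_mul_distrib]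
  refine Finset.prod_congr rfl fun l _ => ?_
  unfold fac
  split_ifs with h
  · rw [one_mul]
  · rw [mul_one]

/-- the number of parameters, `c0 ∣ n1`, odd norms -/
theorem card_XXR {c0 n1 n2 Q : ℕ} {b : ℤ} (hc : c0.Prime) (hc2 : c0 ≠ 2) (hs : Squarefree n1)
    (h3 : n1 % 4 = 3) (h5 : c0 ∣ n1) (hQ : 0 < Q)
    (hDD : 4 * c0 * (Q : ℤ) = n1 * n2 - b ^ 2) :
    ((XX c0 n1 b Q).card : ℤ) = tw n1 (4 * c0 * Q) *
      ∏ l ∈ ((4 * c0 * Q).primeFactors.erase 2).erase c0, fac n1 (4 * c0 * Q) l := by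
  have hn1 : 0 < n1 := by omega
  obtain ⟨k, hk⟩ : ∃ k, n1 + 1 = 4 * k := ⟨(n1 + 1) / 4, by omega⟩
  have hX := t_XCR hc hc2 hs h5 hk hQ hDD
  have h55 := Pool.Agent.N972.PC15.U_fac hs hk c0 hc hc2 (Q.factorization c0)
  rw [if_pos h5] at h55
  rw [U_all hc hc2 hs hk hQ, mul_assoc, prod_facR hc.pos hn1 hQ (by omega), h55,
    ← tw_sum hc hc2 hk hQ] at hX
  rw [hX]
  ring

end Pool.Agent.N970.PCE
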