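import Mathlib
import Pool.Agent.N970.PCE.E

/-!
# The number of pairs with given Gram matrix for an even norm, `c0 ∣ m` without a condition on
`c0` modulo `4`

Variant of parts four and five for the ramified case.
-/

set_option autoImplicit false
set_option linter.all false

namespace Pool.Agent.N970.PCE

open Finset
open Pool.Agent.Z700 (hh fac)
open Pool.Agent.Y155.Z7 (hh_even hh_odd)
open Pool.Agent.Y155.Z7 (C C_eq C_prod R R_eq R_one R_ram_one R_ram S S_zero S_one S_step S_prod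
  S_unram S_ram)
open Pool.Agent.N969.P15 (tb)
open Pool.Agent.N972.PC15 (TT mem_TT)
open Pool.Agent.N575.P15.PCE (crt_card card_TTE S_twoE S_facE sq_par exists_xy jac_one jac_pm
  dvd_of_primes)
open Pool.Agent.N970.PC

/-- the symbol at `c0` in terms of a value of the form -/
theorem val_c0R {c0 m φ g β e D : ℕ} (hc : c0.Prime) (hc2 : c0 ≠ 2) (hg : φ * g = β ^ 2 + m)
    (h5 : c0 ∣ m) (h25 : ¬ c0 * c0 ∣ m)
    (hD : D = 4 * c0 * (e ^ 2 * φ)) (hD0 : 0 < D) (x y : ℤ) {a : ℤ}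
    (ha : a = φ * x ^ 2 + 2 * β * x * y + g * y ^ 2) (ha5 : ¬ (c0 : ℤ) ∣ a) :
    hh (4 * m) D c0 = jacobiSym (-((m / c0 : ℕ) * a)) c0 := by
  have p5 : Prime (c0 : ℤ) := Nat.prime_iff_prime_int.1 hc
  have hc0 := hc.pos
  have hcZ : (c0 : ℤ) ≠ 0 := by exact_mod_cast hc.ne_zero
  obtain ⟨m5, rfl⟩ := h5
  have hm5 : ¬ c0 ∣ m5 := by
    rintro ⟨c, rfl⟩
    exact h25 ⟨c, by ring⟩
  have e0 : c0 * m5 / c0 = m5 := Nat.mul_div_cancel_left _ hc0
  rw [e0]
  have hgZ : (φ : ℤ) * g = β ^ 2 + c0 * m5 := by exact_mod_cast hg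
  by_cases hφ : c0 ∣ φ
  · obtain ⟨φ1, rfl⟩ := hφ
    have hβ : c0 ∣ β := by
      apply hc.dvd_of_dvd_pow (n := 2)
      have h1 : c0 ∣ β ^ 2 + c0 * m5 := by rw [← hg]; exact ⟨φ1 * g, by ring⟩
      exact (Nat.dvd_add_left (Dvd.intro _ rfl)).1 h1
    obtain ⟨β1, rfl⟩ := hβ
    have h1 : φ1 * g = c0 * β1 ^ 2 + m5 := by
      apply Nat.eq_of_mul_eq_mul_left hc0
      rw [← mul_assoc, hg]; ring
    have h1Z : (φ1 : ℤ) * g = c0 * β1 ^ 2 + m5 := by exact_mod_cast h1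
    have h2 : ¬ c0 ∣ φ1 * g := by
      rw [h1]
      intro h
      exact hm5 ((Nat.dvd_add_right (Dvd.intro _ rfl)).1 h)
    have h3 : ¬ c0 ∣ φ1 := fun h => h2 (h.mul_right _)
    have h4 : ¬ c0 ∣ g := fun h => h2 (h.mul_left _)
    rw [hh_even c0 hc (4 * (c0 * m5)) (2 * c0 * e) φ1 D (by rw [hD]; ring) hD0 h3]
    have hga : jacobiSym ((g : ℤ) * a) c0 = 1 := by
      apply jac_onec hc (w := g * y + c0 * β1 * x)
      · refine ⟨m5 * x ^ 2, ?_⟩
        rw [ha]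
        push_cast at hgZ ⊢
        linear_combination x ^ 2 * hgZ
      · intro h
        rcases p5.dvd_or_dvd h with h | h
        · exact h4 (by exact_mod_cast h)
        · exact ha5 h
    have e1 : jacobiSym (-((m5 : ℤ) * a)) c0 = jacobiSym ((-φ1) * (g * a)) c0 := by
      apply jacobiSym.mod_left'
      apply Int.ModEq.symm
      apply Int.modEq_iff_dvd.2
      refine ⟨(β1 ^ 2 * a), ?_⟩
      push_cast
      linear_combination (a) * h1Z
    rw [e1, jacobiSym.mul_left _ (g * a), hga, mul_one]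
  · have h3 : ¬ c0 ∣ 4 * φ := by
      intro h
      rcases hc.dvd_mul.1 h with h | h
      · have h4 : 4 = 2 ^ 2 := by norm_num
        rw [h4] at h
        exact hc2 ((Nat.prime_dvd_prime_iff_eq hc Nat.prime_two).1 (hc.dvd_of_dvd_pow h))
      · exact hφ h
    rw [hh_odd c0 hc (4 * (c0 * m5)) e (4 * φ) D (by rw [hD]; ring) hD0 h3]
    have e1 : 4 * (c0 * m5) / c0 = 4 * m5 := by
      rw [show 4 * (c0 * m5) = c0 * (4 * m5) by ring]
      exact Nat.mul_div_cancel_left _ hc0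
    rw [e1]
    push_cast
    have e2 : -((4 * (m5 : ℤ)) * (4 * φ)) = 4 * (4 * ((-m5) * φ)) := by ring
    rw [e2, J_four hc hc2, J_four hc hc2]
    have hφZ : ¬ (c0 : ℤ) ∣ φ := fun h => hφ (by exact_mod_cast h)
    have hφa : jacobiSym ((φ : ℤ) * a) c0 = 1 := by
      apply jac_onec hc (w := φ * x + β * y)
      · refine ⟨m5 * y ^ 2, ?_⟩
        rw [ha]
        linear_combination y ^ 2 * hgZ
      · intro h
        rcases p5.dvd_or_dvd h with h | h
        · exact hφZ h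
        · exact ha5 h
    rw [jacobiSym.mul_left] at hφa
    rw [show -((m5 : ℤ) * a) = (-m5) * a by ring, jacobiSym.mul_left, jacobiSym.mul_left]
    rcases jac_pmc hc hφZ with h7 | h7
    · rw [h7] at hφa ⊢
      rw [one_mul] at hφa
      rw [hφa]
    · rw [h7] at hφa ⊢
      have : jacobiSym a c0 = -1 := by linarith
      rw [this]

/-- the sign of the reciprocity law -/
def sgq (a b : ℕ) : ℤ := if a % 4 = 3 ∧ b % 4 = 3 then -1 else 1

theorem rec_sgq {a b : ℕ} (ha : a % 2 = 1) (hb : b % 2 = 1) :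
    jacobiSym a b = sgq a b * jacobiSym b a := by
  have ha' : Odd a := Nat.odd_iff.2 ha
  have hb' : Odd b := Nat.odd_iff.2 hb
  unfold sgq
  rcases (by omega : a % 4 = 1 ∨ a % 4 = 3) with h | h
  · rw [if_neg (by omega), one_mul]
    exact jacobiSym.quadratic_reciprocity_one_mod_four h hb'
  · rcases (by omega : b % 4 = 1 ∨ b % 4 = 3) with h' | h'
    · rw [if_neg (by omega), one_mul]
      exact (jacobiSym.quadratic_reciprocity_one_mod_four h' ha').symm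
    · rw [if_pos ⟨h, h'⟩, jacobiSym.quadratic_reciprocity_three_mod_four h h']
      ring

/-- the values modulo `4` -/
def x4 (a : ℕ) : ℤ := if a % 4 = 1 then 1 else -1

/-- the values modulo `8` -/
def x8 (a : ℕ) : ℤ := if a % 8 = 1 ∨ a % 8 = 7 then 1 else -1

theorem at_m1 {a : ℕ} (ha : a % 2 = 1) : jacobiSym (-1) a = x4 a := by
  rw [jacobiSym.at_neg_one (Nat.odd_iff.2 ha)]
  unfold x4
  rcases (by omega : a % 4 = 1 ∨ a % 4 = 3) with h | h
  · rw [if_pos h, ZMod.χ₄_nat_one_mod_four h]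
  · rw [if_neg (by omega), ZMod.χ₄_nat_three_mod_four h]

theorem at_2 {a : ℕ} (ha : a % 2 = 1) : jacobiSym 2 a = x8 a := by
  rw [jacobiSym.at_two (Nat.odd_iff.2 ha), ZMod.χ₈_nat_eq_if_mod_eight, if_neg (by omega)]
  rfl

theorem comb1F : ∀ c a M : Fin 8, (c.val % 2 = 1 ∧ a.val % 2 = 1 ∧ M.val % 2 = 1 ∧
    (c.val * M.val) % 4 = 1 ∧
    x4 a.val * x4 M.val * x4 c.val * sgq c.val a.val * sgq M.val a.val * sgq c.val M.val = -1) →
    (c.val * a.val) % 4 = 3 := by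
  decide

theorem comb1 (c : ℕ) (hc : c < 8) (a : ℕ) (ha : a < 8) (M : ℕ) (hM : M < 8) (h1 : c % 2 = 1)
    (h2 : a % 2 = 1) (h3 : M % 2 = 1) (h4 : (c * M) % 4 = 1)
    (h5 : x4 a * x4 M * x4 c * sgq c a * sgq M a * sgq c M = -1) : (c * a) % 4 = 3 :=
  comb1F ⟨c, hc⟩ ⟨a, ha⟩ ⟨M, hM⟩ ⟨h1, h2, h3, h4, h5⟩

theorem comb2F : ∀ c a M : Fin 8, (c.val % 2 = 1 ∧ a.val % 2 = 1 ∧ M.val % 2 = 1 ∧
    x4 a.val * x4 M.val * x4 c.val * (x8 a.val * x8 c.val) * sgq c.val a.val * sgq M.val a.val *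
      sgq c.val M.val = -1) →
    (c.val * a.val) % 8 = 7 ∨ ((c.val * a.val) % 8 = 5 ∧ (c.val * M.val) % 4 = 1) ∨
      ((c.val * a.val) % 8 = 1 ∧ (c.val * M.val) % 4 = 3) := by
  decide

theorem comb2 (c : ℕ) (hc : c < 8) (a : ℕ) (ha : a < 8) (M : ℕ) (hM : M < 8) (h1 : c % 2 = 1)
    (h2 : a % 2 = 1) (h3 : M % 2 = 1)
    (h5 : x4 a * x4 M * x4 c * (x8 a * x8 c) * sgq c a * sgq M a * sgq c M = -1) :
    (c * a) % 8 = 7 ∨ ((c * a) % 8 = 5 ∧ (c * M) % 4 = 1) ∨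
      ((c * a) % 8 = 1 ∧ (c * M) % 4 = 3) :=
  comb2F ⟨c, hc⟩ ⟨a, ha⟩ ⟨M, hM⟩ ⟨h1, h2, h3, h5⟩

theorem x4_mod (a : ℕ) : x4 (a % 8) = x4 a := by
  unfold x4
  rw [Nat.mod_mod_of_dvd a (by norm_num : 4 ∣ 8)]

theorem x8_mod (a : ℕ) : x8 (a % 8) = x8 a := by
  unfold x8
  rw [Nat.mod_mod]

theorem sgq_mod (a b : ℕ) : sgq (a % 8) (b % 8) = sgq a b := by
  unfold sgq
  rw [Nat.mod_mod_of_dvd a (by norm_num : 4 ∣ 8), Nat.mod_mod_of_dvd b (by norm_num : 4 ∣ 8)]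

theorem mulmod4 (a b : ℕ) : (a % 8 * (b % 8)) % 4 = (a * b) % 4 := by
  rw [Nat.mul_mod, Nat.mod_mod_of_dvd a (by norm_num : 4 ∣ 8),
    Nat.mod_mod_of_dvd b (by norm_num : 4 ∣ 8), ← Nat.mul_mod]

theorem recip_coreR {c0 M a m : ℕ} (hc : c0.Prime) (hco : c0 % 2 = 1) (hM : M % 2 = 1)
    (ha : a % 2 = 1) (hm : (m % 4 = 1 ∧ m = c0 * M) ∨ (m % 4 = 2 ∧ m = 2 * (c0 * M)))
    (k1 : jacobiSym (-(m : ℤ)) a = 1) (k2 : jacobiSym (-((c0 * a : ℕ) : ℤ)) M = 1)
    (k3 : jacobiSym (-((m / c0 : ℕ) * a)) c0 = -1) :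
    (m % 4 = 1 → (c0 * a) % 4 = 3) ∧ (m % 4 = 2 → SG ((c0 * a : ℕ) : ℤ) ((c0 * M : ℕ) : ℤ)) := by
  have hc0 := hc.pos
  have r1 := rec_sgq hco ha
  have r2 := rec_sgq hM ha
  have r3 := rec_sgq hco hM
  have sq1 : ∀ {x : ℤ} {n : ℕ}, jacobiSym x n ≠ 0 → jacobiSym x n * jacobiSym x n = 1 := by
    intro x n h
    rcases jacobiSym.trichotomy x n with h' | h' | h'
    · exact absurd h' h
    · rw [h']; norm_num
    · rw [h']; norm_num
  have l8 : ∀ n : ℕ, n % 8 < 8 := fun n => Nat.mod_lt _ (by norm_num)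
  have o8 : ∀ {n : ℕ}, n % 2 = 1 → n % 8 % 2 = 1 := by intro n h; omega
  have e2 : -((c0 * a : ℕ) : ℤ) = (-1) * (c0 * a) := by push_cast; ring
  rw [e2, jacobiSym.mul_left, jacobiSym.mul_left, at_m1 hM] at k2
  rcases hm with ⟨h4, hm⟩ | ⟨h4, hm⟩
  · refine ⟨fun _ => ?_, fun h => by omega⟩
    have hd : m / c0 = M := by rw [hm]; exact Nat.mul_div_cancel_left _ hc0
    have e1 : -(m : ℤ) = (-1) * (c0 * M) := by rw [hm]; push_cast; ring
    have e3 : -((m / c0 : ℕ) * (a : ℤ)) = (-1) * (M * a) := by rw [hd]; ring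
    rw [e1, jacobiSym.mul_left, jacobiSym.mul_left, at_m1 ha] at k1
    rw [e3, jacobiSym.mul_left, jacobiSym.mul_left, at_m1 hco] at k3
    have n1 : jacobiSym (a : ℤ) c0 ≠ 0 := by
      intro h
      rw [h] at k3
      norm_num at k3
    have n2 : jacobiSym (a : ℤ) M ≠ 0 := by
      intro h
      rw [h] at k2
      norm_num at k2
    have n3 : jacobiSym (M : ℤ) c0 ≠ 0 := by
      intro h
      rw [h] at k3
      norm_num at k3
    have s1 := sq1 n1
    have s2 := sq1 n2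
    have s3 := sq1 n3
    rw [r1, r2] at k1
    rw [r3] at k2
    have key : x4 a * x4 M * x4 c0 * sgq c0 a * sgq M a * sgq c0 M = -1 := by
      have h1 : (x4 a * (sgq c0 a * jacobiSym (a : ℤ) c0 * (sgq M a * jacobiSym (a : ℤ) M))) *
          (x4 M * (sgq c0 M * jacobiSym (M : ℤ) c0 * jacobiSym (a : ℤ) M)) *
          (x4 c0 * (jacobiSym (M : ℤ) c0 * jacobiSym (a : ℤ) c0)) = -1 := by
        rw [k1, k2, k3]; norm_num
      have h2 : (x4 a * (sgq c0 a * jacobiSym (a : ℤ) c0 * (sgq M a * jacobiSym (a : ℤ) M))) *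
          (x4 M * (sgq c0 M * jacobiSym (M : ℤ) c0 * jacobiSym (a : ℤ) M)) *
          (x4 c0 * (jacobiSym (M : ℤ) c0 * jacobiSym (a : ℤ) c0)) =
          x4 a * x4 M * x4 c0 * sgq c0 a * sgq M a * sgq c0 M *
          (jacobiSym (a : ℤ) c0 * jacobiSym (a : ℤ) c0) *
          (jacobiSym (a : ℤ) M * jacobiSym (a : ℤ) M) *
          (jacobiSym (M : ℤ) c0 * jacobiSym (M : ℤ) c0) := by ring
      rw [h2, s1, s2, s3, mul_one, mul_one, mul_one] at h1
      exact h1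
    have := comb1 (c0 % 8) (l8 _) (a % 8) (l8 _) (M % 8) (l8 _) (o8 hco) (o8 ha) (o8 hM)
      (by rw [mulmod4, ← hm]; exact h4) (by
        rw [x4_mod, x4_mod, x4_mod, sgq_mod, sgq_mod, sgq_mod]; exact key)
    rwa [mulmod4] at this
  · refine ⟨fun h => by omega, fun _ => ?_⟩
    have hd : m / c0 = 2 * M := by
      rw [hm, show 2 * (c0 * M) = c0 * (2 * M) by ring]
      exact Nat.mul_div_cancel_left _ hc0
    have e1 : -(m : ℤ) = (-1) * (2 * (c0 * M)) := by rw [hm]; push_cast; ring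
    have e3 : -((m / c0 : ℕ) * (a : ℤ)) = (-1) * (2 * (M * a)) := by rw [hd]; push_cast; ring
    rw [e1, jacobiSym.mul_left, jacobiSym.mul_left, jacobiSym.mul_left, at_m1 ha, at_2 ha] at k1
    rw [e3, jacobiSym.mul_left, jacobiSym.mul_left, jacobiSym.mul_left, at_m1 hco, at_2 hco] at k3
    have n1 : jacobiSym (a : ℤ) c0 ≠ 0 := by
      intro h
      rw [h] at k3
      norm_num at k3
    have n2 : jacobiSym (a : ℤ) M ≠ 0 := by
      intro h
      rw [h] at k2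
      norm_num at k2
    have n3 : jacobiSym (M : ℤ) c0 ≠ 0 := by
      intro h
      rw [h] at k3
      norm_num at k3
    have s1 := sq1 n1
    have s2 := sq1 n2
    have s3 := sq1 n3
    rw [r1, r2] at k1
    rw [r3] at k2
    have key : x4 a * x4 M * x4 c0 * (x8 a * x8 c0) * sgq c0 a * sgq M a * sgq c0 M = -1 := by
      have h1 : (x4 a * (x8 a * (sgq c0 a * jacobiSym (a : ℤ) c0 *
          (sgq M a * jacobiSym (a : ℤ) M)))) *
          (x4 M * (sgq c0 M * jacobiSym (M : ℤ) c0 * jacobiSym (a : ℤ) M)) *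
          (x4 c0 * (x8 c0 * (jacobiSym (M : ℤ) c0 * jacobiSym (a : ℤ) c0))) = -1 := by
        rw [k1, k2, k3]; norm_num
      have h2 : (x4 a * (x8 a * (sgq c0 a * jacobiSym (a : ℤ) c0 *
          (sgq M a * jacobiSym (a : ℤ) M)))) *
          (x4 M * (sgq c0 M * jacobiSym (M : ℤ) c0 * jacobiSym (a : ℤ) M)) *
          (x4 c0 * (x8 c0 * (jacobiSym (M : ℤ) c0 * jacobiSym (a : ℤ) c0))) =
          x4 a * x4 M * x4 c0 * (x8 a * x8 c0) * sgq c0 a * sgq M a * sgq c0 M *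
          (jacobiSym (a : ℤ) c0 * jacobiSym (a : ℤ) c0) *
          (jacobiSym (a : ℤ) M * jacobiSym (a : ℤ) M) *
          (jacobiSym (M : ℤ) c0 * jacobiSym (M : ℤ) c0) := by ring
      rw [h2, s1, s2, s3, mul_one, mul_one, mul_one] at h1
      exact h1
    have := comb2 (c0 % 8) (l8 _) (a % 8) (l8 _) (M % 8) (l8 _) (o8 hco) (o8 ha) (o8 hM) (by
        rw [x4_mod, x4_mod, x4_mod, x8_mod, x8_mod, sgq_mod, sgq_mod, sgq_mod]; exact key)
    rw [mulmod4, ← Nat.mul_mod] at this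
    unfold SG
    generalize c0 * a = X at *
    generalize c0 * M = Y at *
    omega

/-- the sign at two of the odd coefficients; `c0 ∤ m` or `c0 ∣ m`, `c0 ≡ 1 mod 4` -/
theorem recipR {c0 m m0 A B C : ℕ} (hc : c0.Prime) (hc2 : c0 ≠ 2) (hs : Squarefree m)
    (hm : (m % 4 = 1 ∧ m = m0) ∨ (m % 4 = 2 ∧ m = 2 * m0))
    (hAC : A * C = B ^ 2 + m) (hA : A % 2 = 1) {μ ν : ℤ} (h1 : (m0 : ℤ) ∣ μ ^ 2 + 4 * c0 * A)
    (h2 : (m0 : ℤ) ∣ 2 * c0 * (2 * B) + μ * ν) (h3 : (m0 : ℤ) ∣ 4 * c0 * C + ν ^ 2)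
    (h5m : c0 ∣ m) (hJm : ∀ x y a : ℤ,
      a = A * x ^ 2 + 2 * B * x * y + C * y ^ 2 → ¬ (c0 : ℤ) ∣ a →
        jacobiSym (-((m / c0 : ℕ) * a)) c0 = -1) :
    (m % 4 = 1 → (c0 * A) % 4 = 3) ∧ (m % 4 = 2 → SG ((c0 * A : ℕ) : ℤ) m0) := by
  have hm0 : m ≠ 0 := hs.ne_zero
  have hc0 := hc.pos
  have hm00 : m0 ≠ 0 := by
    rintro rfl
    omega
  have hm0o : m0 % 2 = 1 := by omega
  have hcodd : c0 % 2 = 1 := by
    rcases hc.eq_two_or_odd with h | h
    · exact absurd h hc2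
    · exact h
  have hm0m : m0 ∣ m := by
    rcases hm with ⟨_, h⟩ | ⟨_, h⟩
    · rw [h]
    · exact ⟨2, by rw [h]; ring⟩
  have hsq : ∀ p : ℕ, p.Prime → ¬ p * p ∣ m := fun p hp h =>
    hp.one_lt.ne' (Nat.isUnit_iff.1 (hs p h))
  have hNodd : (c0 * m0) % 2 = 1 := by
    rw [Nat.mul_mod, hcodd, hm0o]
  have hprim : ∀ p : ℕ, p.Prime → p ∣ c0 * m0 → p ∣ A → p ∣ C → ¬ p ∣ 2 * B := by
    intro p hp hpN hpA hpC hpB
    have hp2 : p ≠ 2 := by
      rintro rfl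
      omega
    have hpB' : p ∣ B := by
      rcases hp.dvd_mul.1 hpB with h | h
      · exact absurd ((Nat.prime_dvd_prime_iff_eq hp Nat.prime_two).1 h) hp2
      · exact h
    apply hsq p hp
    have e1 : p * p ∣ B ^ 2 + m := by rw [← hAC]; exact Nat.mul_dvd_mul hpA hpC
    have e2 : p * p ∣ B ^ 2 := by rw [pow_two]; exact Nat.mul_dvd_mul hpB' hpB'
    exact (Nat.dvd_add_right e2).1 e1
  obtain ⟨x, y, hxy, hx2, hy8, hval⟩ := exists_xy A (2 * B) C (c0 * m0)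
    (Nat.mul_ne_zero hc.ne_zero hm00) hNodd hprim
  obtain ⟨a, ha⟩ : ∃ a, a = A * x ^ 2 + 2 * B * x * y + C * y ^ 2 := ⟨_, rfl⟩
  rw [← ha] at hval
  have haZ : (a : ℤ) = A * x ^ 2 + 2 * B * x * y + C * y ^ 2 := by rw [ha]; push_cast; ring
  have hACZ : (A : ℤ) * C = B ^ 2 + m := by exact_mod_cast hAC
  have ha8 : a % 8 = A % 8 := by
    obtain ⟨y', rfl⟩ := hy8
    obtain ⟨w, hw⟩ : ∃ w, x ^ 2 = 8 * w + 1 := by
      obtain ⟨t, rfl⟩ : ∃ t, x = 2 * t + 1 := ⟨x / 2, by omega⟩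
      obtain ⟨w, hw⟩ := Nat.even_mul_succ_self t
      exact ⟨w, by linear_combination 4 * hw⟩
    have : a = 8 * (A * w + 2 * B * x * y' + 8 * C * y' ^ 2) + A := by
      rw [ha, hw]; ring
    rw [this]
    omega
  have ha2 : a % 2 = 1 := by omega
  have hcm : ∀ p, p.Prime → p ∣ m → ¬ p ∣ a := by
    intro p hp hpm hpa
    by_cases hp2 : p = 2
    · subst hp2
      omega
    · refine hval p hp (Dvd.dvd.mul_left ?_ c0) hpa
      rcases hm with ⟨_, h⟩ | ⟨_, h⟩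
      · rw [← h]; exact hpm
      · rw [h] at hpm
        rcases hp.dvd_mul.1 hpm with h' | h'
        · exact absurd ((Nat.prime_dvd_prime_iff_eq hp Nat.prime_two).1 h') hp2
        · exact h'
  have ha5n : ¬ c0 ∣ a := hval c0 hc (Dvd.intro _ rfl)
  have ha5 : ¬ (c0 : ℤ) ∣ a := fun h => ha5n (by exact_mod_cast h)
  have ha5' : jacobiSym (a : ℤ) c0 = 1 ∨ jacobiSym (a : ℤ) c0 = -1 := jac_pmc hc ha5
  haveI : NeZero a := ⟨by rintro rfl; omega⟩
  haveI : NeZero c0 := ⟨hc.ne_zero⟩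
  -- the symbol of `-m` modulo `a`
  have hJ1 : jacobiSym (-(m : ℤ)) a = 1 := by
    have hcop : IsCoprime (x : ℤ) (y : ℤ) := Nat.isCoprime_iff_coprime.2 hxy
    obtain ⟨v, u, huv⟩ := hcop
    apply jac_one (w := A * x * (-u) + B * (x * v + y * (-u)) + C * y * v)
    · refine ⟨-(A * (-u) ^ 2 + 2 * B * (-u) * v + C * v ^ 2), ?_⟩
      rw [haZ]
      have huv' : v * (x : ℤ) + u * y = 1 := huv
      linear_combination ((v * (x : ℤ) + u * y) ^ 2) * hACZ + m * (v * x + u * y + 1) * huv'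
    · intro p hp hpa h
      have h' : (p : ℤ) ∣ m := (Int.dvd_neg).1 h
      exact hcm p hp (by exact_mod_cast h') hpa
  -- the symbol of `-c0 a` modulo the divisors of `m0`
  have hw : (m0 : ℤ) ∣ -4 * c0 * a - (μ * x + ν * y) ^ 2 := by
    obtain ⟨c1, hc1⟩ := h1
    obtain ⟨c2, hc2⟩ := h2
    obtain ⟨c3, hc3⟩ := h3
    refine ⟨-(c1 * x ^ 2 + 2 * c2 * x * y + c3 * y ^ 2), ?_⟩
    rw [haZ]
    linear_combination (-(x : ℤ) ^ 2) * hc1 - 2 * x * y * hc2 - (y : ℤ) ^ 2 * hc3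
  have hJ20 : ∀ M : ℕ, M % 2 = 1 → M ∣ m0 → ¬ c0 ∣ M → jacobiSym (-((c0 * a : ℕ) : ℤ)) M = 1 := by
    intro M hM2 hMm hM5
    have hodd : ∀ p : ℕ, p.Prime → p ∣ M → ¬ p ∣ 4 := by
      intro p hp hpM h
      have h4 : 4 = 2 ^ 2 := by norm_num
      rw [h4] at h
      have := (Nat.prime_dvd_prime_iff_eq hp Nat.prime_two).1 (hp.dvd_of_dvd_pow h)
      subst this
      omega
    have h1 : jacobiSym (-4 * c0 * a) M = 1 := by
      apply jac_one (dvd_trans (Int.natCast_dvd_natCast.2 hMm) hw)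
      intro p hp hpM h
      have h' : (p : ℤ) ∣ (4 * c0 * a : ℕ) := by
        have e : (-4 * (c0 : ℤ) * (a : ℤ)) = -((4 * c0 * a : ℕ) : ℤ) := by push_cast; ring
        rw [e] at h
        exact (Int.dvd_neg).1 h
      have h'' : p ∣ 4 * c0 * a := by exact_mod_cast h'
      rcases hp.dvd_mul.1 h'' with h6 | h6
      · rcases hp.dvd_mul.1 h6 with h6 | h6
        · exact hodd p hp hpM h6
        · have := (Nat.prime_dvd_prime_iff_eq hp hc).1 h6
          subst this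
          exact hM5 hpM
      · exact hcm p hp ((hpM.trans hMm).trans hm0m) h6
    have h4 : jacobiSym ((2 : ℤ) ^ 2) M = 1 := by
      apply jac_one (w := 2) (by simp)
      intro p hp hpM h
      have h6 : p ∣ 2 ^ 2 := by exact_mod_cast h
      exact hodd p hp hpM (by norm_num; exact h6)
    have e : (-4 * (c0 : ℤ) * (a : ℤ)) = (2 : ℤ) ^ 2 * (-((c0 * a : ℕ) : ℤ)) := by push_cast; ring
    rw [e, jacobiSym.mul_left, h4, one_mul] at h1
    exact h1
  have h5m0 : c0 ∣ m0 := by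
    rcases hm with ⟨_, h9⟩ | ⟨_, h9⟩
    · rw [← h9]; exact h5m
    · rw [h9] at h5m
      rcases hc.dvd_mul.1 h5m with h | h
      · exact absurd ((Nat.prime_dvd_prime_iff_eq hc Nat.prime_two).1 h) hc2
      · exact h
  obtain ⟨M, hM⟩ := h5m0
  have hM5 : ¬ c0 ∣ M := by
    rintro ⟨r, rfl⟩
    exact hsq c0 hc (dvd_trans ⟨r, by rw [hM]; ring⟩ hm0m)
  have hMm0 : M ∣ m0 := ⟨c0, by rw [hM]; ring⟩
  have hMo : M % 2 = 1 := by
    rcases Nat.mod_two_eq_zero_or_one M with h | h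
    · exfalso
      have : 2 ∣ m0 := (Nat.dvd_of_mod_eq_zero h).trans hMm0
      omega
    · exact h
  have k3 := hJm x y a haZ ha5
  have hm2 : (m % 4 = 1 ∧ m = c0 * M) ∨ (m % 4 = 2 ∧ m = 2 * (c0 * M)) := by
    rw [← hM]; exact hm
  obtain ⟨r1, r2⟩ := recip_coreR hc hcodd hMo ha2 hm2 hJ1 (hJ20 M hMo hMm0 hM5) k3
  have hx8 : (c0 * a) % 8 = (c0 * A) % 8 := by
    rw [Nat.mul_mod, ha8, ← Nat.mul_mod]
  rw [← hM] at r2
  generalize c0 * a = X at *
  generalize c0 * A = Y at *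
  refine ⟨fun h => ?_, fun h => ?_⟩
  · have := r1 h
    omega
  · have := r2 h
    unfold SG at this ⊢
    omega

/-! ### the number of parameters -/

theorem XE_cardR {c0 m m0 T n2 Q : ℕ} {b : ℤ} (hc : c0.Prime) (hc2 : c0 ≠ 2) (hs : Squarefree m)
    (hm : (m % 4 = 1 ∧ m = m0 ∧ T = 4) ∨ (m % 4 = 2 ∧ m = 2 * m0 ∧ T = 8)) (hQ : 0 < Q)
    (h4 : 4 ∣ n2) (hDD : 4 * c0 * (Q : ℤ) = (4 * m : ℕ) * n2 - b ^ 2)
    (h5 : c0 ∣ m) (h5' : hh (4 * m) (4 * c0 * Q) c0 = -1) :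
    ((XE c0 (4 * m) b Q).card : ℤ) = (TT (4 * m) Q).card *
      ((∏ l ∈ m0.primeFactors.erase c0,
        (if l ∣ 4 * c0 * Q then 1 + hh (4 * m) (4 * c0 * Q) l else 1)) * tb b) := by
  have hm1 : 0 < m := Nat.pos_of_ne_zero hs.ne_zero
  have hc0 := hc.pos
  have hcodd : c0 % 2 = 1 := by
    rcases hc.eq_two_or_odd with h | h
    · exact absurd h hc2
    · exact h
  have hm00 : 0 < m0 := by omega
  have hT : 0 < T := by omega
  have h2 : m0 % 2 = 1 := by omega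
  have hn : 4 * m = m0 * T := by
    rcases hm with ⟨_, rfl, rfl⟩ | ⟨_, rfl, rfl⟩ <;> ring
  have hco : Nat.Coprime m0 T := by
    have h2c : Nat.Coprime m0 2 := ((Nat.Prime.coprime_iff_not_dvd Nat.prime_two).2 (by omega)).symm
    rcases hm with ⟨_, _, rfl⟩ | ⟨_, _, rfl⟩
    · exact h2c.pow_right 2
    · exact h2c.pow_right 3
  have hm0m : m0 ∣ m := by
    rcases hm with ⟨_, h, _⟩ | ⟨_, h, _⟩
    · rw [h]
    · exact ⟨2, by rw [h]; ring⟩
  have hs0 : Squarefree m0 := hs.squarefree_of_dvd hm0m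
  have hlm : ∀ l : ℕ, l.Prime → l ∣ m0 → l ≠ 2 ∧ l ∣ 4 * m ∧ ¬ l ^ 2 ∣ 4 * m := by
    intro l hp hl
    have hl2 : l ≠ 2 := by
      rintro rfl
      omega
    refine ⟨hl2, (hl.trans hm0m).mul_left 4, ?_⟩
    intro h
    have hcop : Nat.Coprime (l ^ 2) 4 := by
      have : Nat.Coprime l 2 := (Nat.coprime_primes hp Nat.prime_two).2 hl2
      exact Nat.Coprime.pow 2 2 this
    have h' := hcop.dvd_of_dvd_mul_left h
    rw [pow_two] at h'
    exact hp.one_lt.ne' (Nat.isUnit_iff.1 (hs l h'))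
  have hD0 : 0 < 4 * c0 * Q := by positivity
  have hDD' : ((4 * c0 * Q : ℕ) : ℤ) = (4 * m : ℕ) * n2 - b ^ 2 := by
    push_cast
    push_cast at hDD
    exact hDD
  obtain ⟨n', rfl⟩ := h4
  -- `b` is even
  obtain ⟨b', rfl⟩ : ∃ t, b = 2 * t := by
    obtain ⟨q, hq⟩ := sq_par b
    push_cast at hDD
    have e : 4 * (m : ℤ) * (4 * n') = 4 * (m * (4 * n')) := by ring
    have e' : 4 * (c0 : ℤ) * Q = 4 * (c0 * Q) := by ring
    rw [e, e'] at hDD
    generalize (m : ℤ) * (4 * n') = k at hDD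
    generalize (c0 : ℤ) * Q = k' at hDD
    exact ⟨b / 2, by omega⟩
  have hDQ : c0 * (Q : ℤ) = 4 * (m * n') - b' ^ 2 := by
    push_cast at hDD
    linarith
  have htb : tb (2 * b') = if b' % 2 = 0 then 2 else 1 := by
    unfold tb
    split_ifs <;> omega
  -- the fibres
  have h1 : ∀ t ∈ TT (4 * m) Q,
      (((XE c0 (4 * m) (2 * b') Q).filter fun q => (q.1, q.2.2.1) = t).card : ℤ) =
      (∏ l ∈ m0.primeFactors.erase c0,
        if l ∣ 4 * c0 * Q then 1 + hh (4 * m) (4 * c0 * Q) l else 1) * tb (2 * b') := by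
    intro t ht
    rw [fibE hc hc2 hn hT hm00 hco hs0 h2 (2 * b') Q t ht]
    obtain ⟨g1, g2, g3, g4, g5⟩ := (mem_TT (4 * m) Q t).1 ht
    obtain ⟨e, β⟩ := t
    simp only at g1 g2 g3 g4 g5 ⊢
    have hφ : 0 < Q / e ^ 2 := Nat.div_pos (Nat.le_of_dvd hQ g3) (pow_pos g2 2)
    have hQe : Q = e ^ 2 * (Q / e ^ 2) := (Nat.mul_div_cancel' g3).symm
    have hg := Nat.mul_div_cancel' g5
    -- the product over the primes of `m0`
    have hC : (C e (2 * b') (4 * c0 * (Q / e ^ 2)) (2 * c0 * β)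
        (4 * c0 * ((β ^ 2 + 4 * m) / (4 * (Q / e ^ 2)))) m0 : ℤ) =
        ∏ l ∈ m0.primeFactors.erase c0,
          if l ∣ 4 * c0 * Q then 1 + hh (4 * m) (4 * c0 * Q) l else 1 := by
      have hloc : ∀ l ∈ m0.primeFactors, l ≠ c0 → (C e (2 * b') (4 * c0 * (Q / e ^ 2))
          (2 * c0 * β) (4 * c0 * ((β ^ 2 + 4 * m) / (4 * (Q / e ^ 2)))) l : ℤ) =
          if l ∣ 4 * c0 * Q then 1 + hh (4 * m) (4 * c0 * Q) l else 1 := by
        intro l hl hl5
        have hl1 := Nat.prime_of_mem_primeFactors hl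
        have hl2 := Nat.dvd_of_mem_primeFactors hl
        obtain ⟨q1, q2, q3⟩ := hlm l hl1 hl2
        refine C_local (K := 2 * c0) (n2 := (4 * n' : ℕ)) hl1 q1 ?_ q2 q3 hD0 hDD' ?_ ?_
        · intro h
          rcases hl1.dvd_mul.1 h with h' | h'
          · exact q1 ((Nat.prime_dvd_prime_iff_eq hl1 Nat.prime_two).1 h')
          · exact hl5 ((Nat.prime_dvd_prime_iff_eq hl1 hc).1 h')
        · rw [mul_left_comm, ← hQe]
        · generalize (β ^ 2 + 4 * m) / (4 * (Q / e ^ 2)) = g at hg ⊢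
          have : 4 * c0 * (Q / e ^ 2) * (4 * c0 * g) =
            (2 * c0) ^ 2 * (4 * (Q / e ^ 2) * g) := by ring
          rw [this, hg]
          ring
      rw [C_prod _ _ _ _ _ (by positivity : 0 < 4 * c0 * (Q / e ^ 2)) hs0, Nat.cast_prod]
      by_cases h5m : c0 ∣ m0
      · have h5' : c0 ∈ m0.primeFactors := Nat.mem_primeFactors.2 ⟨hc, h5m, hm00.ne'⟩
        have hb5 : (c0 : ℤ) ∣ 2 * b' := by
          have p5 : Prime (c0 : ℤ) := Nat.prime_iff_prime_int.1 hc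
          have : (c0 : ℤ) ∣ b' := by
            apply p5.dvd_of_dvd_pow (n := 2)
            obtain ⟨r, hr⟩ := h5m.trans hm0m
            refine ⟨4 * r * n' - Q, ?_⟩
            rw [hr] at hDQ
            push_cast at hDQ
            linear_combination hDQ
          exact this.mul_left 2
        rw [← Finset.mul_prod_erase _ _ h5',
          C_ram hc hb5 ⟨4 * (Q / e ^ 2), by ring⟩ ⟨2 * β, by ring⟩
            ⟨4 * ((β ^ 2 + 4 * m) / (4 * (Q / e ^ 2))), by ring⟩, Nat.cast_one, one_mul]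
        refine Finset.prod_congr rfl fun l hl => ?_
        have hle := Finset.mem_erase.1 hl
        exact hloc l hle.2 hle.1
      · have h5' : c0 ∉ m0.primeFactors := fun h => h5m (Nat.dvd_of_mem_primeFactors h)
        rw [Finset.erase_eq_of_notMem h5']
        refine Finset.prod_congr rfl fun l hl => ?_
        refine hloc l hl ?_
        rintro rfl
        exact h5' hl
    rw [Nat.cast_mul, hC]
    by_cases hP : (∏ l ∈ m0.primeFactors.erase c0,
        if l ∣ 4 * c0 * Q then 1 + hh (4 * m) (4 * c0 * Q) l else 1) = 0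
    · rw [hP, zero_mul, zero_mul]
    · congr 1
      -- a solution modulo `m0`
      have hC0 : C e (2 * b') (4 * c0 * (Q / e ^ 2)) (2 * c0 * β)
        (4 * c0 * ((β ^ 2 + 4 * m) / (4 * (Q / e ^ 2)))) m0 ≠ 0 := by
        intro h
        rw [h] at hC
        exact hP hC.symm
      rw [C_eq _ _ _ _ _ _ hm00] at hC0
      obtain ⟨p, hp⟩ := Finset.card_ne_zero.1 hC0
      have hp := (Finset.mem_filter.1 hp).2
      generalize (β ^ 2 + 4 * m) / (4 * (Q / e ^ 2)) = g at *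
      generalize Q / e ^ 2 = φ at *
      -- `β` is even
      obtain ⟨β', rfl⟩ : ∃ t, β = 2 * t := by
        rcases Nat.even_or_odd' β with ⟨t, ht | ht⟩
        · exact ⟨t, ht⟩
        · exfalso
          have e1 : β ^ 2 + 4 * m = 4 * (t ^ 2 + t + m) + 1 := by rw [ht]; ring
          rw [e1, mul_assoc] at hg
          omega
      have hg' : φ * g = β' ^ 2 + m := by
        apply Nat.eq_of_mul_eq_mul_left (by norm_num : 0 < 4)
        rw [← mul_assoc, hg]; ring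
      have hg'' : g * φ = β' ^ 2 + m := by rw [mul_comm]; exact hg'
      have hgZ : (φ : ℤ) * g = β' ^ 2 + m := by exact_mod_cast hg'
      have p1 : (m0 : ℤ) ∣ (p.1 : ℤ) ^ 2 + 4 * c0 * φ := by
        exact_mod_cast Int.natCast_dvd_natCast.2 hp.2.1
      have p2 : (m0 : ℤ) ∣ 2 * c0 * (2 * (β' : ℤ)) + p.1 * p.2 := by
        exact_mod_cast Int.natCast_dvd_natCast.2 hp.2.2.1
      have p3 : (m0 : ℤ) ∣ 4 * c0 * (g : ℤ) + p.2 ^ 2 := by
        exact_mod_cast Int.natCast_dvd_natCast.2 hp.2.2.2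
      have hm' : (m % 4 = 1 ∧ m = m0) ∨ (m % 4 = 2 ∧ m = 2 * m0) := by
        rcases hm with ⟨x1, x2, _⟩ | ⟨x1, x2, _⟩
        · exact Or.inl ⟨x1, x2⟩
        · exact Or.inr ⟨x1, x2⟩
      have h25 : ¬ c0 * c0 ∣ m := fun h => hc.one_lt.ne' (Nat.isUnit_iff.1 (hs c0 h))
      have hcm : ∀ {A : ℕ}, A % 2 = 1 → (c0 * A) % 2 = 1 := by
        intro A hA
        rw [Nat.mul_mod, hcodd, hA]
      have s1 : φ % 2 = 1 → (m % 4 = 1 → (c0 * φ) % 4 = 3) ∧
          (m % 4 = 2 → SG ((c0 * φ : ℕ) : ℤ) m0) := by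
        intro hφ1
        refine recipR hc hc2 hs hm' hg' hφ1 p1 p2 p3 h5 fun x y a ha ha5 => ?_
        rw [← val_c0R (D := 4 * c0 * Q) hc hc2 hg' h5 h25 (by rw [← hQe]) hD0 x y ha ha5]
        exact h5'
      have s2 : g % 2 = 1 → (m % 4 = 1 → (c0 * g) % 4 = 3) ∧
          (m % 4 = 2 → SG ((c0 * g : ℕ) : ℤ) m0) := by
        intro hg1
        refine recipR hc hc2 hs hm' hg'' hg1 (μ := p.2) (ν := p.1)
          (by rw [add_comm]; exact p3) (by rw [mul_comm (p.2 : ℤ)]; exact p2)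
          (by rw [add_comm]; exact p1) h5 fun x y a ha ha5 => ?_
        rw [← val_c0R (D := 4 * c0 * Q) hc hc2 hg' h5 h25 (by rw [← hQe]) hD0 y x
          (by rw [ha]; ring) ha5]
        exact h5'
      rw [htb]
      have hQe' : c0 * ((e : ℤ) ^ 2 * φ) = 4 * (m * n') - b' ^ 2 := by
        rw [← hDQ, hQe]; push_cast; ring
      have hcZ : (c0 : ℤ) % 2 = 1 := by omega
      push_cast at s1 s2
      rcases hm with ⟨x1, x2, x3⟩ | ⟨x1, x2, x3⟩
      · have hcn := cnt_four (c := c0) (m := m) (φ := φ) (g := g) (β := β') (e := e) (b := b')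
          (n := m * n') hgZ (by omega) hcZ hQe'
          (fun h => by have := (s1 (by omega)).1 x1; exact_mod_cast this)
          (fun h => by have := (s2 (by omega)).1 x1; exact_mod_cast this)
        rw [x3]
        push_cast
        push_cast at hcn
        rw [hcn]
        split_ifs <;> rfl
      · have hm0Z : (m : ℤ) = 2 * m0 := by rw [x2]; push_cast; ring
        have hcn := cnt_eight (c := c0) (m := m0) (φ := φ) (g := g) (β := β') (e := e) (b := b')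
          (n := m0 * n') (by rw [hgZ, hm0Z]) (by omega) hcZ (by rw [hQe', hm0Z]; ring)
          (fun h => (s1 (by omega)).2 x1)
          (fun h => (s2 (by omega)).2 x1)
        have e8 : ((4 * m : ℕ) : ℤ) = 8 * m0 := by push_cast; rw [hm0Z]; ring
        rw [x3, e8]
        push_cast
        push_cast at hcn
        rw [hcn]
        split_ifs <;> rfl
  rw [Finset.card_eq_sum_card_fiberwise (f := fun q => (q.1, q.2.2.1)) (t := TT (4 * m) Q),
    Nat.cast_sum, Finset.sum_congr rfl h1, Finset.sum_const, nsmul_eq_mul]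
  intro q hq
  have hq := (Finset.mem_filter.1 (Finset.mem_coe.1 hq)).1
  unfold XX at hq
  have hq := Finset.mem_filter.1 hq
  have hq3 := Finset.mem_product.1 hq.1
  exact Finset.mem_coe.2 ((mem_TT (4 * m) Q _).2 ⟨Finset.mem_range.1 hq3.1, hq.2.1, hq.2.2.1,
    hq.2.2.2.1, hq.2.2.2.2.2.2.1⟩)

/-- the number of parameters in terms of the sum over `e` -/
theorem card_XER {c0 m n2 Q : ℕ} {b : ℤ} (hc : c0.Prime) (hc2 : c0 ≠ 2) (hs : Squarefree m)
    (hm : m % 4 = 1 ∨ m % 4 = 2) (hQ : 0 < Q)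
    (h4 : 4 ∣ n2) (hDD : 4 * c0 * (Q : ℤ) = (4 * m : ℕ) * n2 - b ^ 2)
    (h5 : c0 ∣ m) (h5' : hh (4 * m) (4 * c0 * Q) c0 = -1) :
    ((XE c0 (4 * m) b Q).card : ℤ) = (S m (c0 ^ Q.factorization c0) : ℤ) *
      (tb b * ∏ l ∈ ((4 * c0 * Q).primeFactors.erase 2).erase c0, fac (4 * m) (4 * c0 * Q) l) := by
  obtain ⟨m0, T, hmT⟩ : ∃ m0 T, (m % 4 = 1 ∧ m = m0 ∧ T = 4) ∨ (m % 4 = 2 ∧ m = 2 * m0 ∧ T = 8) := by
    rcases hm with hm | hm
    · exact ⟨m, 4, Or.inl ⟨hm, rfl, rfl⟩⟩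
    · exact ⟨m / 2, 8, Or.inr ⟨hm, by omega, rfl⟩⟩
  have hm1 : 0 < m := Nat.pos_of_ne_zero hs.ne_zero
  have hX := XE_cardR hc hc2 hs hmT hQ h4 hDD h5 h5'
  have hpf := prod_facE (c0 := c0) (m := m) (m0 := m0) (Q := Q) hc.pos (by omega) (by omega)
    (fun l hp hl => by
    constructor
    · intro h
      have h' : l ∣ m := by
        rcases hp.dvd_mul.1 h with h | h
        · exfalso
          have : l ∣ 2 ^ 2 := by norm_num; exact h
          exact hl ((Nat.prime_dvd_prime_iff_eq hp Nat.prime_two).1 (hp.dvd_of_dvd_pow this))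
        · exact h
      rcases hmT with ⟨_, h1, _⟩ | ⟨_, h1, _⟩
      · rw [← h1]; exact h'
      · rw [h1] at h'
        rcases hp.dvd_mul.1 h' with h'' | h''
        · exact absurd ((Nat.prime_dvd_prime_iff_eq hp Nat.prime_two).1 h'') hl
        · exact h''
    · intro h
      have h' : l ∣ m := by
        rcases hmT with ⟨_, h1, _⟩ | ⟨_, h1, _⟩
        · rw [h1]; exact h
        · rw [h1]; exact h.mul_left 2
      exact h'.mul_left 4) hQ
  rw [hX, card_TTE m Q hQ, S_allE hc hc2 hs hm hQ, ← hpf]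
  ring

end Pool.Agent.N970.PCE
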